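import Pool.Agent.Helper36_RF.Ex

/-!
# Slow logarithmic cut-off functions (helper13, MP_a23110_gt, module FAM)
-/

noncomputable section

open scoped ContDiff Topology
set_option maxSynthPendingDepth 3
set_option linter.unusedSectionVars false
open Set

namespace Pool.Agent.RF.H13

theorem deriv_smoothTransition_bound : ∃ C : ℝ, 0 < C ∧ ∀ x, |deriv Real.smoothTransition x| ≤ C := by
  have h1 : ContDiff ℝ ∞ Real.smoothTransition := Real.smoothTransition.contDiff
  have h2 : Continuous (deriv Real.smoothTransition) := h1.continuous_deriv (by simp)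
  obtain ⟨C, hC⟩ := isCompact_Icc.exists_bound_of_continuousOn (s := Icc (0:ℝ) 1) h2.continuousOn
  refine ⟨|C| + 1, by positivity, fun x => ?_⟩
  by_cases hx : x ∈ Icc (0:ℝ) 1
  · have := hC x hx
    rw [Real.norm_eq_abs] at this
    linarith [le_abs_self C]
  · have : deriv Real.smoothTransition x = 0 := by
      rw [mem_Icc, not_and_or, not_le, not_le] at hx
      rcases hx with hx | hx
      · have h3 : Real.smoothTransition =ᶠ[𝓝 x] fun _ => 0 := by
          filter_upwards [gt_mem_nhds hx] with y hy
          exact Real.smoothTransition.zero_of_nonpos (le_of_lt hy)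
        rw [h3.deriv_eq, deriv_const]
      · have h3 : Real.smoothTransition =ᶠ[𝓝 x] fun _ => 1 := by
          filter_upwards [lt_mem_nhds hx] with y hy
          exact Real.smoothTransition.one_of_one_le (le_of_lt hy)
        rw [h3.deriv_eq, deriv_const]
    rw [this, abs_zero]
    positivity

theorem exists_psi {θ ρ : ℝ} (hθ : 0 < θ) (hρ : 0 < ρ) :
    ∃ (e : ℝ) (ψ : ℝ → ℝ), 0 < e ∧ e < ρ ∧ ContDiff ℝ ∞ ψ ∧ (∀ τ, τ < e → ψ τ = 1) ∧
      (∀ τ, ρ ≤ τ → ψ τ = 0) ∧ Antitone ψ ∧ (∀ τ, 0 ≤ ψ τ) ∧ (∀ τ, ψ τ ≤ 1) ∧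
      (∀ τ, 0 ≤ τ → 0 ≤ -(τ * deriv ψ τ) ∧ -(τ * deriv ψ τ) ≤ θ) := by
  obtain ⟨C, hC, hCb⟩ := deriv_smoothTransition_bound
  set κ : ℝ := θ / C with hκ
  have hκp : 0 < κ := by positivity
  set e : ℝ := ρ * Real.exp (-(1 / κ)) with he
  have hep : 0 < e := by positivity
  have heρ : e < ρ := by
    have : Real.exp (-(1 / κ)) < 1 := by
      rw [Real.exp_lt_one_iff]
      have : 0 < 1 / κ := by positivity
      linarith
    calc e = ρ * Real.exp (-(1 / κ)) := he
      _ < ρ * 1 := by gcongr
      _ = ρ := mul_one ρ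
  let g : ℝ → ℝ := fun τ => 1 - Real.smoothTransition (κ * Real.log (τ / e))
  let ψ : ℝ → ℝ := fun τ => if τ ≤ e / 2 then 1 else g τ
  have hg1 : ∀ τ, 0 < τ → τ ≤ e → g τ = 1 := by
    intro τ h0 h1
    have h2 : Real.log (τ / e) ≤ 0 := Real.log_nonpos (by positivity) (by rw [div_le_one hep]; exact h1)
    have h3 : κ * Real.log (τ / e) ≤ 0 := mul_nonpos_of_nonneg_of_nonpos hκp.le h2
    show 1 - _ = _
    rw [Real.smoothTransition.zero_of_nonpos h3, sub_zero]
  have hψ1 : ∀ τ, τ ≤ e → ψ τ = 1 := by
    intro τ h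
    by_cases h1 : τ ≤ e / 2
    · simp only [ψ, if_pos h1]
    · simp only [ψ, if_neg h1]
      exact hg1 τ (by linarith) h
  have hψg : ∀ τ, e / 2 < τ → ψ τ = g τ := by
    intro τ h
    simp only [ψ, if_neg (not_le.2 h)]
  have hloc1 : ∀ τ, τ < e → ψ =ᶠ[𝓝 τ] fun _ => 1 := by
    intro τ h
    filter_upwards [gt_mem_nhds h] with y hy
    exact hψ1 y (le_of_lt hy)
  have hloc2 : ∀ τ, e ≤ τ → ψ =ᶠ[𝓝 τ] g := by
    intro τ h
    have : e / 2 < τ := by linarith
    filter_upwards [lt_mem_nhds this] with y hy
    exact hψg y hy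
  have hgsm : ∀ τ, 0 < τ → ContDiffAt ℝ ∞ g τ := by
    intro τ h
    have h1 : ContDiffAt ℝ ∞ (fun τ => κ * Real.log (τ / e)) τ :=
      contDiffAt_const.mul ((contDiffAt_id.div_const e).log (by positivity))
    have h2 : ContDiffAt ℝ ∞ Real.smoothTransition (κ * Real.log (τ / e)) :=
      Real.smoothTransition.contDiffAt
    have h3 : ContDiffAt ℝ ∞ (fun τ => Real.smoothTransition (κ * Real.log (τ / e))) τ :=
      ContDiffAt.comp (g := Real.smoothTransition) τ h2 h1
    exact contDiffAt_const.sub h3
  have hanti : Antitone ψ := by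
    intro x y hxy
    by_cases h1 : y ≤ e
    · rw [hψ1 y h1, hψ1 x (hxy.trans h1)]
    · rw [not_le] at h1
      rw [hψg y (by linarith)]
      by_cases h2 : x ≤ e
      · rw [hψ1 x h2]
        show 1 - _ ≤ _
        have := Real.smoothTransition.nonneg (κ * Real.log (y / e))
        linarith
      · rw [not_le] at h2
        rw [hψg x (by linarith)]
        show 1 - _ ≤ 1 - _
        have hx0 : 0 < x := by linarith
        have : Real.smoothTransition (κ * Real.log (x / e)) ≤
            Real.smoothTransition (κ * Real.log (y / e)) := by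
          apply Real.smoothTransition.monotone
          gcongr
        linarith
  refine ⟨e, ψ, hep, heρ, ?_, fun τ h => hψ1 τ h.le, ?_, hanti, ?_, ?_, ?_⟩
  · rw [contDiff_iff_contDiffAt]
    intro τ
    rcases lt_or_ge τ e with h | h
    · exact contDiffAt_const.congr_of_eventuallyEq (hloc1 τ h)
    · exact (hgsm τ (by linarith)).congr_of_eventuallyEq (hloc2 τ h)
  · intro τ h
    rw [hψg τ (by linarith)]
    have h1 : 1 ≤ κ * Real.log (τ / e) := by
      have h2 : Real.log (ρ / e) ≤ Real.log (τ / e) := by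
        apply Real.log_le_log (by positivity)
        gcongr
      have h3 : Real.log (ρ / e) = 1 / κ := by
        have : ρ / e = Real.exp (1 / κ) := by
          rw [he, Real.exp_neg]
          field_simp
        rw [this, Real.log_exp]
      rw [h3] at h2
      calc 1 = κ * (1 / κ) := by field_simp
        _ ≤ _ := by gcongr
    show 1 - _ = _
    rw [Real.smoothTransition.one_of_one_le h1, sub_self]
  · intro τ
    by_cases h : τ ≤ e
    · rw [hψ1 τ h]; norm_num
    · rw [not_le] at h
      rw [hψg τ (by linarith)]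
      show 0 ≤ 1 - _
      have := Real.smoothTransition.le_one (κ * Real.log (τ / e))
      linarith
  · intro τ
    by_cases h : τ ≤ e
    · rw [hψ1 τ h]
    · rw [not_le] at h
      rw [hψg τ (by linarith)]
      show 1 - _ ≤ _
      have := Real.smoothTransition.nonneg (κ * Real.log (τ / e))
      linarith
  · intro τ hτ
    rcases lt_or_ge τ e with h | h
    · rw [(hloc1 τ h).deriv_eq, deriv_const, mul_zero, neg_zero]
      exact ⟨le_rfl, hθ.le⟩
    · have hτp : 0 < τ := by linarith
      have h1 : HasDerivAt (fun τ => κ * Real.log (τ / e)) (κ * (1 / e / (τ / e))) τ :=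
        (((hasDerivAt_id τ).div_const e).log (by positivity)).const_mul κ
      have h2 : HasDerivAt Real.smoothTransition
          (deriv Real.smoothTransition (κ * Real.log (τ / e))) (κ * Real.log (τ / e)) := by
        have h3 : ContDiff ℝ ∞ Real.smoothTransition := Real.smoothTransition.contDiff
        exact (h3.differentiable (by simp) _).hasDerivAt
      have h3 : HasDerivAt g (-(deriv Real.smoothTransition (κ * Real.log (τ / e)) *
          (κ * (1 / e / (τ / e))))) τ := by
        have h4 := (h2.comp τ h1).const_sub 1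
        exact h4
      rw [(hloc2 τ h).deriv_eq, h3.deriv]
      have h5 : -(τ * -(deriv Real.smoothTransition (κ * Real.log (τ / e)) *
          (κ * (1 / e / (τ / e))))) = κ * deriv Real.smoothTransition (κ * Real.log (τ / e)) := by
        field_simp
      rw [h5]
      have h6 : 0 ≤ deriv Real.smoothTransition (κ * Real.log (τ / e)) :=
        Real.smoothTransition.monotone.deriv_nonneg
      refine ⟨mul_nonneg hκp.le h6, ?_⟩
      have h7 := hCb (κ * Real.log (τ / e))
      rw [abs_of_nonneg h6] at h7
      calc κ * _ ≤ κ * C := by gcongr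
        _ = θ := by rw [hκ]; field_simp

end Pool.Agent.RF.H13
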