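import Pool.Agent.Helper13_RF.Soft
import Pool.Agent.Helper13_RF.Psi

/-!
# The profile functions (helper13, MP_a23110_gt, module FAM)
-/

noncomputable section

open scoped ContDiff Topology
set_option maxSynthPendingDepth 3
set_option linter.unusedSectionVars false
set_option linter.unusedVariables false
open Set

namespace Pool.Agent.RF.H13

/-- the integral part of `A` -/
def GG (c ρ : ℝ) (ψ : ℝ → ℝ) (τ : ℝ) : ℝ := ∫ s in τ..ρ, (12 - vν c * s) * ψ s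
def AA (c ρ : ℝ) (ψ : ℝ → ℝ) (τ : ℝ) : ℝ := 1 - τ + GG c ρ ψ τ
def FF1 (k : ℝ) (ψ : ℝ) (τ : ℝ) : ℝ := k * ψ / ((1 - τ * (1 + k * ψ)) * (1 - τ))

section

variable {c ρ e₀ : ℝ} {ψ : ℝ → ℝ}

theorem cont_integrand (hψ : ContDiff ℝ ∞ ψ) : Continuous fun s => (12 - vν c * s) * ψ s := by
  have := hψ.continuous
  fun_prop

theorem GG_hasDeriv (hψ : ContDiff ℝ ∞ ψ) (τ : ℝ) :
    HasDerivAt (GG c ρ ψ) (-((12 - vν c * τ) * ψ τ)) τ := by
  have hc := cont_integrand (c := c) hψ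
  exact intervalIntegral.integral_hasDerivAt_left (hc.intervalIntegrable _ _)
    (hc.stronglyMeasurableAtFilter _ _) hc.continuousAt

theorem GG_smooth (hψ : ContDiff ℝ ∞ ψ) : ContDiff ℝ ∞ (GG c ρ ψ) := by
  rw [contDiff_infty_iff_deriv]
  have h1 : deriv (GG c ρ ψ) = fun τ => -((12 - vν c * τ) * ψ τ) := by
    funext τ; exact (GG_hasDeriv hψ τ).deriv
  refine ⟨fun τ => (GG_hasDeriv hψ τ).differentiableAt, ?_⟩
  rw [h1]
  fun_prop

theorem AA_hasDeriv (hψ : ContDiff ℝ ∞ ψ) (τ : ℝ) :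
    HasDerivAt (AA c ρ ψ) (-(vB c τ (ψ τ))) τ := by
  have h1 := ((hasDerivAt_id τ).const_sub 1).add (GG_hasDeriv (c := c) (ρ := ρ) hψ τ)
  have e : -1 + -((12 - vν c * τ) * ψ τ) = -(vB c τ (ψ τ)) := by
    simp only [vB]; ring
  rw [e] at h1
  exact h1

theorem AA_deriv (hψ : ContDiff ℝ ∞ ψ) : deriv (AA c ρ ψ) = fun τ => -(vB c τ (ψ τ)) := by
  funext τ; exact (AA_hasDeriv hψ τ).deriv

theorem AA_deriv2 (hψ : ContDiff ℝ ∞ ψ) (τ : ℝ) :
    deriv (deriv (AA c ρ ψ)) τ = vν c * ψ τ - (12 - vν c * τ) * deriv ψ τ := by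
  rw [AA_deriv hψ]
  have h0 : HasDerivAt ψ (deriv ψ τ) τ := (hψ.differentiable (by simp) τ).hasDerivAt
  have h1 : HasDerivAt (fun τ => 12 - vν c * τ) (-(vν c * 1)) τ :=
    ((hasDerivAt_id τ).const_mul (vν c)).const_sub 12
  have h2 := ((h1.mul h0).const_add 1).neg
  have e : -(-(vν c * 1) * ψ τ + (12 - vν c * τ) * deriv ψ τ) =
      vν c * ψ τ - (12 - vν c * τ) * deriv ψ τ := by ring
  rw [e] at h2
  exact h2.deriv

theorem GG_zero (h0 : ∀ τ, ρ ≤ τ → ψ τ = 0) {τ : ℝ} (h : ρ ≤ τ) : GG c ρ ψ τ = 0 := by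
  rw [GG, intervalIntegral.integral_symm]
  have : ∫ s in ρ..τ, (12 - vν c * s) * ψ s = ∫ s in ρ..τ, (0 : ℝ) := by
    apply intervalIntegral.integral_congr
    intro s hs
    rw [uIcc_of_le h] at hs
    show (12 - vν c * s) * ψ s = 0
    rw [h0 s hs.1, mul_zero]
  rw [this]
  simp

end

/-- the facts on `ψ` which are used -/
structure PsiData (θ ρ e₀ : ℝ) (ψ : ℝ → ℝ) : Prop where
  e₀_pos : 0 < e₀
  e₀_lt : e₀ < ρ
  smooth : ContDiff ℝ ∞ ψ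
  one : ∀ τ, τ < e₀ → ψ τ = 1
  zero : ∀ τ, ρ ≤ τ → ψ τ = 0
  anti : Antitone ψ
  nonneg : ∀ τ, 0 ≤ ψ τ
  le_one : ∀ τ, ψ τ ≤ 1
  slow : ∀ τ, 0 ≤ τ → 0 ≤ -(τ * deriv ψ τ) ∧ -(τ * deriv ψ τ) ≤ θ

section

variable {c θ ρ e₀ : ℝ} {ψ : ℝ → ℝ} (H : PsiData θ ρ e₀ ψ) (hc1 : 1 / 2 ≤ c) (hc2 : c ≤ 1)
  (hρ : ρ ≤ 1 / 1000)

include H hc1 hc2 hρ

theorem integrand_bound {s : ℝ} (h0 : 0 ≤ s) : 0 ≤ (12 - vν c * s) * ψ s ∧
    (12 - vν c * s) * ψ s ≤ 13 := by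
  have hν1 : vν c ≤ 0 := by simp only [vν]; linarith
  have hν2 : -300 ≤ vν c := by simp only [vν]; linarith
  have h1 : 0 ≤ -vν c * s := mul_nonneg (by linarith) h0
  have h2 := H.nonneg s
  have h3 := H.le_one s
  refine ⟨mul_nonneg (by linarith) h2, ?_⟩
  by_cases hs : ρ ≤ s
  · rw [H.zero s hs, mul_zero]; norm_num
  · rw [not_le] at hs
    have h4 : -vν c * s ≤ 300 * (1 / 1000) :=
      mul_le_mul (by linarith) (by linarith) h0 (by norm_num)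
    have h5 : 12 - vν c * s ≤ 13 := by linarith
    calc (12 - vν c * s) * ψ s ≤ 13 * 1 := mul_le_mul h5 h3 h2 (by norm_num)
      _ = 13 := by norm_num

theorem GG_bound {τ : ℝ} (h0 : 0 ≤ τ) : 0 ≤ GG c ρ ψ τ ∧ GG c ρ ψ τ ≤ 13 * ρ := by
  have hρp : 0 < ρ := H.e₀_pos.trans H.e₀_lt
  by_cases hs : ρ ≤ τ
  · rw [GG_zero H.zero hs]; exact ⟨le_rfl, by positivity⟩
  · rw [not_le] at hs
    constructor
    · exact intervalIntegral.integral_nonneg hs.le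
        (fun s hs' => (integrand_bound H hc1 hc2 hρ (h0.trans hs'.1)).1)
    · have h1 : GG c ρ ψ τ ≤ ∫ s in τ..ρ, (13 : ℝ) := by
        apply intervalIntegral.integral_mono_on hs.le
          ((cont_integrand H.smooth).intervalIntegrable _ _)
          (continuous_const.intervalIntegrable _ _)
        intro s hs'
        exact (integrand_bound H hc1 hc2 hρ (h0.trans hs'.1)).2
      rw [intervalIntegral.integral_const, smul_eq_mul] at h1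
      nlinarith

theorem AA_pos {τ : ℝ} (h0 : 0 ≤ τ) (h1 : τ < 1) : 0 < AA c ρ ψ τ := by
  have := (GG_bound H hc1 hc2 hρ h0).1
  simp only [AA]
  linarith

theorem AA_zero_bound : |AA c ρ ψ 0 - 1| ≤ 13 * ρ := by
  have := GG_bound H hc1 hc2 hρ (le_refl (0:ℝ))
  simp only [AA]
  rw [abs_le]
  have hρp : 0 < ρ := H.e₀_pos.trans H.e₀_lt
  constructor <;> linarith [this.1, this.2]

theorem AA_diff (τ : ℝ) : AA c ρ ψ 0 - AA c ρ ψ τ = τ + ∫ s in (0:ℝ)..τ, (12 - vν c * s) * ψ s := by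
  have hc := cont_integrand (c := c) H.smooth
  have h1 := intervalIntegral.integral_add_adjacent_intervals
    (hc.intervalIntegrable (μ := MeasureTheory.volume) 0 τ)
    (hc.intervalIntegrable (μ := MeasureTheory.volume) τ ρ)
  simp only [AA, GG]
  rw [← h1]
  ring

theorem exists_alpha {τ : ℝ} (h0 : 0 ≤ τ) : ∃ α : ℝ, AA c ρ ψ τ = AA c ρ ψ 0 - α * τ ∧
    |α - 13| ≤ 12 * (1 - ψ τ) + 300 * τ := by
  have hν1 : vν c ≤ 0 := by simp only [vν]; linarith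
  have hν2 : -300 ≤ vν c := by simp only [vν]; linarith
  rcases eq_or_lt_of_le h0 with h | h
  · subst h
    refine ⟨13, by ring, ?_⟩
    have := H.le_one 0
    simp only [sub_self, abs_zero]
    linarith
  · refine ⟨(AA c ρ ψ 0 - AA c ρ ψ τ) / τ, by field_simp; ring, ?_⟩
    rw [AA_diff H hc1 hc2 hρ]
    have hc := cont_integrand (c := c) H.smooth
    have h1 : (τ + ∫ s in (0:ℝ)..τ, (12 - vν c * s) * ψ s) / τ - 13 =
        (∫ s in (0:ℝ)..τ, ((12 - vν c * s) * ψ s - 12)) / τ := by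
      rw [intervalIntegral.integral_sub (hc.intervalIntegrable _ _)
        (continuous_const.intervalIntegrable _ _), intervalIntegral.integral_const, smul_eq_mul]
      field_simp
      ring
    rw [h1, abs_div, abs_of_pos h, div_le_iff₀ h]
    have h2 := intervalIntegral.norm_integral_le_of_norm_le_const (a := (0:ℝ)) (b := τ)
      (f := fun s => (12 - vν c * s) * ψ s - 12) (C := 12 * (1 - ψ τ) + 300 * τ) (by
        intro s hs
        rw [uIoc_of_le h0] at hs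
        rw [Real.norm_eq_abs]
        have a1 := H.nonneg s
        have a2 := H.le_one s
        have a3 := H.anti hs.2
        have a4 : 0 ≤ -vν c * s := mul_nonneg (by linarith) hs.1.le
        have a5 : -vν c * s ≤ 300 * τ := mul_le_mul (by linarith) hs.2 hs.1.le (by norm_num)
        have a6 : 0 ≤ (-vν c * s) * ψ s := mul_nonneg a4 a1
        have a7 : (-vν c * s) * ψ s ≤ 300 * τ := by
          calc (-vν c * s) * ψ s ≤ (-vν c * s) * 1 := mul_le_mul_of_nonneg_left a2 a4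
            _ ≤ _ := by linarith
        have e : (12 - vν c * s) * ψ s - 12 = (-vν c * s) * ψ s - 12 * (1 - ψ s) := by ring
        rw [e, abs_le]
        constructor
        · have : 0 ≤ 300 * τ := by positivity
          linarith
        · have : 0 ≤ 12 * (1 - ψ τ) := by linarith [H.le_one τ]
          linarith)
    rw [sub_zero, abs_of_pos h] at h2
    exact h2

theorem AA_local {τ : ℝ} (h : τ < e₀) :
    AA c ρ ψ τ = AA c ρ ψ 0 - 13 * τ + vν c * τ ^ 2 / 2 := by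
  have h1 := AA_diff H hc1 hc2 hρ τ
  have h2 : ∫ s in (0:ℝ)..τ, (12 - vν c * s) * ψ s = 12 * τ - vν c * τ ^ 2 / 2 := by
    have h3 : ∫ s in (0:ℝ)..τ, (12 - vν c * s) * ψ s = ∫ s in (0:ℝ)..τ, (12 - vν c * s) := by
      apply intervalIntegral.integral_congr
      intro s hs
      show (12 - vν c * s) * ψ s = 12 - vν c * s
      have : s < e₀ := by
        have := hs.2
        have h4 := H.e₀_pos
        rcases le_total 0 τ with h5 | h5
        · rw [max_eq_right h5] at this; linarith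
        · rw [max_eq_left h5] at this; linarith
      rw [H.one s this, mul_one]
    rw [h3]
    have h4 : ∀ s : ℝ, HasDerivAt (fun s => 12 * s - vν c * s ^ 2 / 2) (12 - vν c * s) s := by
      intro s
      have h5 := ((hasDerivAt_id s).const_mul 12).sub
        (((hasDerivAt_pow 2 s).const_mul (vν c)).div_const 2)
      have e : 12 * 1 - vν c * (((2:ℕ) : ℝ) * s ^ (2 - 1)) / 2 = 12 - vν c * s := by
        norm_num; ring
      rw [e] at h5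
      exact h5
    rw [intervalIntegral.integral_eq_sub_of_hasDerivAt (fun s _ => h4 s)
      ((by fun_prop : Continuous fun s : ℝ => 12 - vν c * s).intervalIntegrable _ _)]
    ring
  rw [h2] at h1
  linarith

end

section Eta

variable {c θ ρ e₀ b σ : ℝ} {ψ : ℝ → ℝ} (H : PsiData θ ρ e₀ ψ) (hρ : ρ ≤ 1 / 1000)
  (hk1 : 0 ≤ vk c b σ) (hk2 : vk c b σ ≤ 38)

include H hρ hk1 hk2

theorem vP_pos {τ : ℝ} (h1 : τ < 1) : 0 < vP c b τ (ψ τ) σ := by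
  simp only [vP, vK1]
  have h2 := H.nonneg τ
  have h3 := H.le_one τ
  have h4 : 0 ≤ vk c b σ * ψ τ := mul_nonneg hk1 h2
  have h5 : vk c b σ * ψ τ ≤ 38 * 1 := mul_le_mul hk2 h3 h2 (by norm_num)
  by_cases hs : ρ ≤ τ
  · rw [H.zero τ hs]; linarith
  · rw [not_le] at hs
    by_cases h0 : 0 ≤ τ
    · have : τ * (1 + vk c b σ * ψ τ) ≤ (1 / 1000) * 39 :=
        mul_le_mul (by linarith) (by linarith) (by linarith) (by norm_num)
      linarith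
    · rw [not_le] at h0
      have : τ * (1 + vk c b σ * ψ τ) ≤ 0 :=
        mul_nonpos_of_nonpos_of_nonneg h0.le (by linarith)
      linarith

theorem vP_lower {τ : ℝ} (h0 : 0 ≤ τ) (h1 : τ ≤ ρ) : 1 / 2 ≤ vP c b τ (ψ τ) σ := by
  simp only [vP, vK1]
  have h2 := H.nonneg τ
  have h3 := H.le_one τ
  have h4 : 0 ≤ vk c b σ * ψ τ := mul_nonneg hk1 h2
  have h5 : vk c b σ * ψ τ ≤ 38 * 1 := mul_le_mul hk2 h3 h2 (by norm_num)
  have : τ * (1 + vk c b σ * ψ τ) ≤ (1 / 1000) * 39 :=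
    mul_le_mul (by linarith) (by linarith) (by linarith) (by norm_num)
  linarith

theorem eta_eq : etaF (fun τ => FF1 (vk c b σ) (ψ τ) τ) =
    fun τ => vK1 c b (ψ τ) σ / vP c b τ (ψ τ) σ := by
  funext τ
  simp only [etaF, FF1]
  by_cases hs : ρ ≤ τ
  · rw [H.zero τ hs]
    simp [vP, vK1]
  · rw [not_le] at hs
    have h1 : τ < 1 := by linarith
    have hP := vP_pos H hρ hk1 hk2 h1
    have h2 : (1 - τ) ≠ 0 := by linarith
    have hP2 : 1 - τ * (1 + vk c b σ * ψ τ) ≠ 0 := hP.ne'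
    simp only [vP, vK1]
    field_simp
    ring

theorem AF_eq (c' : ℝ) : AF (fun τ => GG c' ρ ψ τ / (1 - τ) ^ 2) = AA c' ρ ψ := by
  funext τ
  simp only [AF, AA]
  by_cases h1 : τ = 1
  · subst h1
    rw [GG_zero H.zero (by linarith)]
    simp
  · have h2 : (1 - τ) ≠ 0 := sub_ne_zero.2 (Ne.symm h1)
    field_simp

/-- the scalar functions in terms of the algebraic expressions -/
theorem scalar_functions (hc1 : 1 / 2 ≤ c) (hc2 : c ≤ 1) {τ : ℝ} (h0 : 0 ≤ τ) (h1 : τ < 1) :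
    0 < 1 + (vK1 c b (ψ τ) σ / vP c b τ (ψ τ) σ) * τ ∧
    fK1 (fun τ => vK1 c b (ψ τ) σ / vP c b τ (ψ τ) σ) τ = vK1 c b (ψ τ) σ ∧
    fK0 (fun τ => vK1 c b (ψ τ) σ / vP c b τ (ψ τ) σ) τ =
      vK0 c b (ψ τ) (-(τ * deriv ψ τ)) σ ∧
    fM (fun τ => vK1 c b (ψ τ) σ / vP c b τ (ψ τ) σ) (AA c ρ ψ) τ =
      vM c b (AA c ρ ψ τ)⁻¹ τ (ψ τ) σ ∧
    fL (fun τ => vK1 c b (ψ τ) σ / vP c b τ (ψ τ) σ) (AA c ρ ψ) τ =
      vL c b (AA c ρ ψ τ)⁻¹ τ (ψ τ) (-(τ * deriv ψ τ)) σ ∧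
    fN (fun τ => vK1 c b (ψ τ) σ / vP c b τ (ψ τ) σ) (AA c ρ ψ) τ =
      vN c b (AA c ρ ψ τ)⁻¹ τ (ψ τ) σ := by
  have hP := vP_pos H hρ hk1 hk2 h1
  have hA := AA_pos H hc1 hc2 hρ h0 h1
  have e1 : 1 + (vK1 c b (ψ τ) σ / vP c b τ (ψ τ) σ) * τ = 1 / vP c b τ (ψ τ) σ := by
    have : vP c b τ (ψ τ) σ = 1 - τ * vK1 c b (ψ τ) σ := rfl
    field_simp
    rw [this]; ring
  have eP : fP (fun τ => vK1 c b (ψ τ) σ / vP c b τ (ψ τ) σ) τ = vP c b τ (ψ τ) σ := by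
    simp only [fP]
    rw [e1, one_div, inv_inv]
  have hd : HasDerivAt ψ (deriv ψ τ) τ := (H.smooth.differentiable (by simp) τ).hasDerivAt
  have hdK : HasDerivAt (fun τ => vK1 c b (ψ τ) σ) (vk c b σ * deriv ψ τ) τ :=
    (hd.const_mul (vk c b σ)).const_add 1
  have hdP : HasDerivAt (fun τ => vP c b τ (ψ τ) σ)
      (-(1 * vK1 c b (ψ τ) σ + τ * (vk c b σ * deriv ψ τ))) τ :=
    ((hasDerivAt_id τ).mul hdK).const_sub 1
  have hdη := hdK.div hdP hP.ne'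
  have eK0 : fK0 (fun τ => vK1 c b (ψ τ) σ / vP c b τ (ψ τ) σ) τ =
      vK0 c b (ψ τ) (-(τ * deriv ψ τ)) σ := by
    simp only [fK0]
    rw [eP]
    have e2 : deriv (fun τ => vK1 c b (ψ τ) σ / vP c b τ (ψ τ) σ) τ = _ := hdη.deriv
    rw [e2]
    have e3 : vP c b τ (ψ τ) σ = 1 - τ * vK1 c b (ψ τ) σ := rfl
    simp only [vK0]
    field_simp
    rw [e3]
    ring
  refine ⟨?_, ?_, eK0, ?_, ?_, ?_⟩
  · rw [e1]; positivity
  · simp only [fK1]
    rw [eP]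
    field_simp
  · simp only [fM]
    rw [eP, AA_deriv H.smooth]
    simp only [vM]
    rw [div_eq_mul_inv, neg_neg]
  · simp only [fL, fM, flam]
    rw [eP, eK0, AA_deriv2 H.smooth, AA_deriv H.smooth]
    simp only [vL]
    field_simp
    ring
  · simp only [fN]
    rw [eP, AA_deriv H.smooth]
    simp only [vN]
    field_simp

end Eta

theorem posCond_round {p c : ℝ} (hc : c = 1 - 1 / p) (hc1 : 1 / 2 ≤ c) (hc2 : c ≤ 1) :
    PosCond p 2 1 1 1 1 1 := by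
  refine ⟨one_pos, one_pos, one_pos, one_pos, one_pos, by norm_num, ?_, ?_⟩
  · rw [← hc]; linarith
  · rw [← hc]; nlinarith

/-- the positivity condition for the whole profile -/
theorem posCond_all {p c δ ρ e₀ σ : ℝ} {ψ : ℝ → ℝ} (hc : c = 1 - 1 / p) (hc1 : 1 / 2 ≤ c)
    (hc2 : c ≤ 1) (hδ : 0 < δ) (hδ' : δ ≤ 1 / 3000)
    (hsoft : ∀ a b w τ ψ e σ α : ℝ, a * b = 1 → (a - α * τ) * w = 1 →
      |a - 1| ≤ δ → 0 ≤ τ → τ ≤ δ → 0 ≤ ψ → ψ ≤ 1 → 0 ≤ e → e ≤ δ → 0 < σ → σ ≤ δ →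
      |α - 13| ≤ 12 * (1 - ψ) + 300 * τ →
      PosCond p 2 (vK1 c b ψ σ) (vK0 c b ψ e σ) (vM c b w τ ψ σ) (vL c b w τ ψ e σ)
        (vN c b w τ ψ σ))
    (H : PsiData δ ρ e₀ ψ) (hρ : 13 * ρ ≤ δ) (hσ0 : 0 < σ) (hσ1 : σ ≤ δ) {τ : ℝ}
    (h0 : 0 ≤ τ) (h1 : τ < 1) :
    PosCond p 2 (vK1 c (AA c ρ ψ 0)⁻¹ (ψ τ) σ) (vK0 c (AA c ρ ψ 0)⁻¹ (ψ τ) (-(τ * deriv ψ τ)) σ)
      (vM c (AA c ρ ψ 0)⁻¹ (AA c ρ ψ τ)⁻¹ τ (ψ τ) σ)
      (vL c (AA c ρ ψ 0)⁻¹ (AA c ρ ψ τ)⁻¹ τ (ψ τ) (-(τ * deriv ψ τ)) σ)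
      (vN c (AA c ρ ψ 0)⁻¹ (AA c ρ ψ τ)⁻¹ τ (ψ τ) σ) := by
  have hρp : 0 < ρ := H.e₀_pos.trans H.e₀_lt
  have hρ1 : ρ ≤ 1 / 1000 := by linarith
  rcases le_or_gt τ ρ with hs | hs
  · obtain ⟨α, hα1, hα2⟩ := exists_alpha H hc1 hc2 hρ1 h0
    have ha := AA_zero_bound H hc1 hc2 hρ1
    have hA0 := AA_pos H hc1 hc2 hρ1 le_rfl (by norm_num : (0:ℝ) < 1)
    have hA := AA_pos H hc1 hc2 hρ1 h0 h1
    obtain ⟨s1, s2⟩ := H.slow τ h0
    refine hsoft (AA c ρ ψ 0) _ _ τ (ψ τ) (-(τ * deriv ψ τ)) σ α (mul_inv_cancel₀ hA0.ne') ?_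
      (by linarith) h0 (by linarith) (H.nonneg τ) (H.le_one τ) s1 s2 hσ0 hσ1 hα2
    rw [← hα1]
    exact mul_inv_cancel₀ hA.ne'
  · have z1 : ψ τ = 0 := H.zero τ hs.le
    have z2 : deriv ψ τ = 0 := by
      have : ψ =ᶠ[𝓝 τ] fun _ => 0 := by
        filter_upwards [lt_mem_nhds hs] with y hy
        exact H.zero y (le_of_lt hy)
      rw [this.deriv_eq, deriv_const]
    have hA : AA c ρ ψ τ = 1 - τ := by
      simp only [AA]
      rw [GG_zero H.zero hs.le, add_zero]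
    have h2 : (1 - τ) ≠ 0 := by linarith
    rw [z1, z2, mul_zero, neg_zero, hA]
    have e1 : vK1 c (AA c ρ ψ 0)⁻¹ 0 σ = 1 := by simp [vK1]
    have e2 : vK0 c (AA c ρ ψ 0)⁻¹ 0 0 σ = 1 := by simp [vK0, vK1]
    have e3 : vM c (AA c ρ ψ 0)⁻¹ (1 - τ)⁻¹ τ 0 σ = 1 := by
      simp only [vM, vB, vP, vK1]
      field_simp
      ring
    have e4 : vL c (AA c ρ ψ 0)⁻¹ (1 - τ)⁻¹ τ 0 0 σ = 1 := by
      simp only [vL, vB, vP, vK1, vK0]
      field_simp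
      ring
    have e5 : vN c (AA c ρ ψ 0)⁻¹ (1 - τ)⁻¹ τ 0 σ = 1 := by
      simp only [vN, vB, vP, vK1]
      field_simp
      ring
    rw [e1, e2, e3, e4, e5]
    exact posCond_round hc hc1 hc2

theorem orb_zero {p c a : ℝ} (hc : c = 1 - 1 / p) (ha : 0 < a) :
    orbF p 3 (vK c a⁻¹) a 13 = 0 := by
  simp only [orbF, vK]
  rw [← hc]
  field_simp
  ring

theorem orb_neg {p c a : ℝ} (hp : 2 ≤ p) (hc : c = 1 - 1 / p) (ha : |a - 1| ≤ 1 / 1000) :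
    orbFt p 3 (vK c a⁻¹) a 13 (vν c) < 0 := by
  have hp0 : 0 < p := by linarith
  rw [abs_le] at ha
  have hap : 0 < a := by linarith
  have hc1 : 1 / 2 ≤ c := by
    rw [hc]
    have : 1 / p ≤ 1 / 2 := by gcongr
    linarith
  have hc2 : c ≤ 1 := by
    rw [hc]
    have : 0 < 1 / p := by positivity
    linarith
  obtain ⟨b, hb⟩ : ∃ b, b = a⁻¹ := ⟨_, rfl⟩
  have hab : a * b = 1 := by rw [hb]; exact mul_inv_cancel₀ hap.ne'
  have hbp : 0 < b := by rw [hb]; positivity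
  have hb1 : 998 / 1000 ≤ b := by nlinarith
  have hb2 : b ≤ 1002 / 1000 := by nlinarith
  have e1 : orbFt p 3 (vK c a⁻¹) a 13 (vν c) =
      2 * (p + 3) * b ^ 2 * (169 / 3 - 143 * c - c ^ 2)
      + 20 * (-(vν c) * b + b ^ 2 * (-(1352 / 5) + 312 / 5 * c)) := by
    have h3 : 1 - (p + 3) / (p * 3) = c - 1 / 3 := by rw [hc]; field_simp; ring
    simp only [orbFt, vK]
    rw [h3, ← hc, ← hb]
    have h4 : (1 : ℝ) / a = b := by rw [hb, one_div]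
    have h5 : (13 : ℝ) / a = 13 * b := by rw [hb, div_eq_mul_inv]
    have h6 : ∀ x : ℝ, x / a = x * b := fun x => by rw [hb, div_eq_mul_inv]
    have h7 : (13 : ℝ) ^ 2 / a ^ 2 = 169 * b ^ 2 := by
      rw [hb]; field_simp; norm_num
    rw [h7]
    simp only [h6]
    ring
  rw [e1]
  have f1 : 169 / 3 - 143 * c - c ^ 2 ≤ -15 := by nlinarith
  have f2 : 2 * (p + 3) * b ^ 2 * (169 / 3 - 143 * c - c ^ 2) ≤ -140 := by
    have g1 : 9 ≤ 2 * (p + 3) * b ^ 2 := by nlinarith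
    have g2 : 2 * (p + 3) * b ^ 2 * (169 / 3 - 143 * c - c ^ 2) ≤
        2 * (p + 3) * b ^ 2 * (-15) := mul_le_mul_of_nonneg_left f1 (by linarith)
    nlinarith
  have f3 : 20 * (-(vν c) * b + b ^ 2 * (-(1352 / 5) + 312 / 5 * c)) ≤ 100 := by
    simp only [vν]
    have g1 : (1352 / 5 - 312 / 5 * c) * (1 - b) ≤ 1352 / 5 * (2 / 1000) := by
      have g2 : 0 ≤ 1352 / 5 - 312 / 5 * c := by linarith
      have g3 : (1352 / 5 - 312 / 5 * c) * (1 - b) ≤ (1352 / 5 - 312 / 5 * c) * (2 / 1000) :=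
        mul_le_mul_of_nonneg_left (by linarith) g2
      linarith
    have g4 : b * ((1352 / 5 - 312 / 5 * c) * (1 - b) + 1 / 10) ≤ b * 1 :=
      mul_le_mul_of_nonneg_left (by linarith) hbp.le
    have e3 : 20 * (-(-(541 / 2) + 312 / 5 * c) * b + b ^ 2 * (-(1352 / 5) + 312 / 5 * c)) =
        20 * (b * ((1352 / 5 - 312 / 5 * c) * (1 - b) + 1 / 10)) := by ring
    rw [e3]
    linarith
  linarith

theorem fam : FamStatement := by
  intro p hp r hr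
  have hpR : (2 : ℝ) ≤ (p : ℝ) := by exact_mod_cast hp
  have hp0 : (0 : ℝ) < (p : ℝ) := by linarith
  obtain ⟨c, hc⟩ : ∃ c : ℝ, c = 1 - 1 / (p : ℝ) := ⟨_, rfl⟩
  have hc1 : 1 / 2 ≤ c := by
    rw [hc]
    have : 1 / (p : ℝ) ≤ 1 / 2 := by gcongr
    linarith
  have hc2 : c ≤ 1 := by
    rw [hc]
    have : 0 < 1 / (p : ℝ) := by positivity
    linarith
  obtain ⟨δ, hδ, hδ', hsoft⟩ := soft hc hc1 hc2
  set ρ : ℝ := min (δ / 13) (r / 200) with hρdef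
  have hρp : 0 < ρ := by rw [hρdef]; positivity
  have hρ13 : 13 * ρ ≤ δ := by
    have : ρ ≤ δ / 13 := min_le_left _ _
    linarith
  have hρr : 200 * ρ ≤ r := by
    have : ρ ≤ r / 200 := min_le_right _ _
    linarith
  have hρ1 : ρ ≤ 1 / 1000 := by linarith
  obtain ⟨e₀, ψ, p1, p2, p3, p4, p5, p6, p7, p8, p9⟩ := exists_psi hδ hρp
  have H : PsiData δ ρ e₀ ψ := ⟨p1, p2, p3, p4, p5, p6, p7, p8, p9⟩
  have hA0 := AA_pos H hc1 hc2 hρ1 le_rfl (by norm_num : (0:ℝ) < 1)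
  have ha := AA_zero_bound H hc1 hc2 hρ1
  set a : ℝ := AA c ρ ψ 0 with hadef
  have ha' := abs_le.1 ha
  have hab : a * a⁻¹ = 1 := mul_inv_cancel₀ hA0.ne'
  have hbp : 0 < a⁻¹ := by positivity
  have hb1 : 99 / 100 ≤ a⁻¹ := by nlinarith
  have hb2 : a⁻¹ ≤ 10102 / 10000 := by nlinarith
  let σ : ℝ → ℝ := fun ε => δ * (ε ^ 2 / (1 + ε ^ 2))
  have hσs : ContDiff ℝ ∞ σ := by
    apply contDiff_const.mul
    apply ContDiff.div (by fun_prop) (by fun_prop)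
    intro x
    positivity
  have hσ0 : σ 0 = 0 := by simp [σ]
  have hσnn : ∀ ε, 0 ≤ σ ε := fun ε => by positivity
  have hσle : ∀ ε, σ ε ≤ δ := fun ε => by
    have : ε ^ 2 / (1 + ε ^ 2) ≤ 1 := by
      rw [div_le_one (by positivity)]; linarith
    calc σ ε = δ * (ε ^ 2 / (1 + ε ^ 2)) := rfl
      _ ≤ δ * 1 := by gcongr
      _ = δ := mul_one δ
  have hσpos : ∀ ε, 0 < ε → 0 < σ ε := fun ε h => by positivity
  have hk : ∀ ε, 36 ≤ vk c a⁻¹ (σ ε) ∧ vk c a⁻¹ (σ ε) ≤ 38 := fun ε =>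
    vk_bounds hc1 hc2 hb1 hb2 (hσnn ε) (by linarith [hσle ε])
  have hk1 : ∀ ε, 0 ≤ vk c a⁻¹ (σ ε) := fun ε => by linarith [(hk ε).1]
  have hη : ∀ ε, etaF (fun τ => FF1 (vk c a⁻¹ (σ ε)) (ψ τ) τ) =
      fun τ => vK1 c a⁻¹ (ψ τ) (σ ε) / vP c a⁻¹ τ (ψ τ) (σ ε) := fun ε =>
    eta_eq H hρ1 (hk1 ε) (hk ε).2
  have hAF : AF (fun τ => GG c ρ ψ τ / (1 - τ) ^ 2) = AA c ρ ψ :=
    AF_eq H hρ1 (hk1 0) (hk 0).2 c
  refine ⟨fun ε τ => FF1 (vk c a⁻¹ (σ ε)) (ψ τ) τ, fun τ => GG c ρ ψ τ / (1 - τ) ^ 2, ρ, 1,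
    e₀, vK c a⁻¹, a, 13, vν c, ?_, ?_, hρp, by linarith, one_pos, ?_, ?_, ?_, ?_, ?_, ?_, ?_,
    p1, ?_, hA0, ?_, ?_, ?_, ?_⟩
  · -- smoothness of F₁
    rw [contDiff_iff_contDiffAt]
    rintro ⟨ε, τ⟩
    rcases lt_or_ge ρ τ with hs | hs
    · have : (fun q : ℝ × ℝ => FF1 (vk c a⁻¹ (σ q.1)) (ψ q.2) q.2) =ᶠ[𝓝 (ε, τ)] fun _ => 0 := by
        have h1 : ∀ᶠ q : ℝ × ℝ in 𝓝 (ε, τ), ρ < q.2 :=
          continuousAt_snd.eventually_const_lt hs
        filter_upwards [h1] with q hq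
        simp only [FF1]
        rw [p5 q.2 (le_of_lt hq), mul_zero, zero_div]
      exact contDiffAt_const.congr_of_eventuallyEq this
    · have h1 : τ < 1 := by linarith
      have hP := vP_pos H hρ1 (hk1 ε) (hk ε).2 h1
      have hψ2 : ContDiff ℝ ∞ (fun q : ℝ × ℝ => ψ q.2) := p3.comp contDiff_snd
      have hk2 : ContDiff ℝ ∞ (fun q : ℝ × ℝ => vk c a⁻¹ (σ q.1)) := by
        simp only [vk]
        exact contDiff_const.sub (hσs.comp contDiff_fst)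
      have hnum : ContDiff ℝ ∞ (fun q : ℝ × ℝ => vk c a⁻¹ (σ q.1) * ψ q.2) := hk2.mul hψ2
      have hden : ContDiff ℝ ∞ (fun q : ℝ × ℝ =>
          (1 - q.2 * (1 + vk c a⁻¹ (σ q.1) * ψ q.2)) * (1 - q.2)) :=
        (contDiff_const.sub (contDiff_snd.mul (contDiff_const.add hnum))).mul
          (contDiff_const.sub contDiff_snd)
      refine hnum.contDiffAt.div hden.contDiffAt ?_
      exact mul_ne_zero hP.ne' (by simp only; linarith)
  · -- smoothness of F₂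
    rw [contDiff_iff_contDiffAt]
    intro τ
    rcases lt_or_ge ρ τ with hs | hs
    · have : (fun τ => GG c ρ ψ τ / (1 - τ) ^ 2) =ᶠ[𝓝 τ] fun _ => 0 := by
        filter_upwards [lt_mem_nhds hs] with y hy
        rw [GG_zero p5 (le_of_lt hy), zero_div]
      exact contDiffAt_const.congr_of_eventuallyEq this
    · have h1 : (1 - τ) ≠ 0 := by linarith
      refine (GG_smooth p3).contDiffAt.div (by fun_prop) (pow_ne_zero 2 h1)
  · intro ε τ h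
    simp only [FF1]
    rw [p5 τ h, mul_zero, zero_div]
  · intro τ h
    simp only
    rw [GG_zero p5 h, zero_div]
  · -- bound of F₁
    intro ε _ τ hτ
    by_cases hs : ρ ≤ τ
    · simp only [FF1]
      rw [p5 τ hs, mul_zero, zero_div, abs_zero, zero_mul]
      exact hr.le
    · rw [not_le] at hs
      have hP := vP_lower H hρ1 (hk1 ε) (hk ε).2 hτ.1 hs.le
      have hP' : 1 / 2 ≤ 1 - τ * (1 + vk c a⁻¹ (σ ε) * ψ τ) := hP
      have h2 : 99 / 100 ≤ 1 - τ := by linarith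
      have h3 : 0 ≤ vk c a⁻¹ (σ ε) * ψ τ := mul_nonneg (hk1 ε) (p7 τ)
      have h4 : vk c a⁻¹ (σ ε) * ψ τ ≤ 38 * 1 := mul_le_mul (hk ε).2 (p8 τ) (p7 τ) (by norm_num)
      have h5 : 1 / 2 * (99 / 100) ≤ (1 - τ * (1 + vk c a⁻¹ (σ ε) * ψ τ)) * (1 - τ) :=
        mul_le_mul hP' h2 (by norm_num) (by linarith)
      have h6 : 0 ≤ FF1 (vk c a⁻¹ (σ ε)) (ψ τ) τ := by
        simp only [FF1]
        exact div_nonneg h3 (by linarith)
      have h7 : FF1 (vk c a⁻¹ (σ ε)) (ψ τ) τ ≤ 100 := by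
        simp only [FF1]
        rw [div_le_iff₀ (by linarith)]
        linarith
      show |FF1 (vk c a⁻¹ (σ ε)) (ψ τ) τ| * τ ≤ r
      rw [abs_of_nonneg h6]
      calc _ ≤ 100 * ρ := mul_le_mul h7 hs.le hτ.1 (by norm_num)
        _ ≤ r := by linarith
  · -- bound of F₂
    intro τ hτ
    by_cases hs : ρ ≤ τ
    · simp only
      rw [GG_zero p5 hs, zero_div, abs_zero]
      exact hr.le
    · rw [not_le] at hs
      have hG := GG_bound H hc1 hc2 hρ1 hτ.1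
      have h2 : 99 / 100 ≤ 1 - τ := by linarith
      have h3 : 1 / 2 ≤ (1 - τ) ^ 2 := by nlinarith
      show |GG c ρ ψ τ / (1 - τ) ^ 2| ≤ r
      rw [abs_of_nonneg (div_nonneg hG.1 (sq_nonneg _)), div_le_iff₀ (by linarith)]
      nlinarith [hG.2]
  · intro ε _ τ hτ
    rw [hη ε]
    exact (scalar_functions H hρ1 (hk1 ε) (hk ε).2 hc1 hc2 hτ.1 hτ.2).1
  · intro τ hτ
    rw [hAF]
    exact AA_pos H hc1 hc2 hρ1 hτ.1 hτ.2
  · intro ε hε τ hτ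
    rw [hη ε, hAF]
    obtain ⟨_, s2, s3, s4, s5, s6⟩ :=
      scalar_functions H hρ1 (hk1 ε) (hk ε).2 hc1 hc2 hτ.1 hτ.2
    rw [s2, s3, s4, s5, s6]
    exact posCond_all hc hc1 hc2 hδ hδ' hsoft H hρ13 (hσpos ε hε.1) (hσle ε) hτ.1 hτ.2
  · simp only [vK]
    have : 0 < 26 - c := by linarith
    positivity
  · intro τ hτ
    have h1 := congrFun (hη 0) τ
    have h2 : etaF ((fun ε τ => FF1 (vk c a⁻¹ (σ ε)) (ψ τ) τ) 0) τ =
      etaF (fun τ => FF1 (vk c a⁻¹ (σ 0)) (ψ τ) τ) τ := rfl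
    rw [h2, h1]
    simp only [vP, vK1, vk]
    rw [hσ0, p4 τ hτ]
    have e1 : 1 + (vK c a⁻¹ - 1 - 0) * 1 = vK c a⁻¹ := by ring
    rw [e1, mul_comm τ]
  · intro τ hτ
    rw [hAF]
    exact AA_local H hc1 hc2 hρ1 hτ
  · exact orb_zero hc hA0
  · exact orb_neg hpR hc (by linarith)

end Pool.Agent.RF.H13
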