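import Pool.Agent.Helper13_RF.FlowV

/-!
# Smooth flows of tangential homogeneous vector fields (helper13, MP_a23110_gt)
-/

noncomputable section

open scoped ContDiff Topology NNReal RealInnerProductSpace
set_option maxSynthPendingDepth 3
set_option linter.unusedSectionVars false
open Set

namespace Pool.Agent.RF.H13

variable {ι : Type} [Fintype ι] [DecidableEq ι]

/-- a bump function around `1` -/
def bmp : ContDiffBump (1 : ℝ) := ⟨1 / 4, 1 / 2, by norm_num, by norm_num⟩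

theorem bmp_one : (bmp : ℝ → ℝ) 1 = 1 := bmp.one_of_mem_closedBall (by simp [bmp])

theorem bmp_zero {s : ℝ} (h : s ≤ 1 / 2 ∨ 3 / 2 ≤ s) : (bmp : ℝ → ℝ) s = 0 := by
  apply bmp.zero_of_le_dist
  show (1 / 2 : ℝ) ≤ dist s 1
  rw [Real.dist_eq]
  rcases h with h | h
  · rw [abs_sub_comm]
    exact le_trans (by linarith) (le_abs_self _)
  · exact le_trans (by linarith) (le_abs_self _)

/-- the cut off field -/
def cutV (W : ℝ → E ι → E ι) (t : ℝ) (x : E ι) : E ι := (-(bmp : ℝ → ℝ) (‖x‖ ^ 2)) • W t x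

theorem cutV_smooth {T : ℝ} {W : ℝ → E ι → E ι}
    (hW : ContDiffOn ℝ ∞ (fun p : ℝ × E ι => W p.1 p.2) (Icc 0 T ×ˢ Om ι)) :
    ContDiffOn ℝ ∞ (fun p : ℝ × E ι => cutV W p.1 p.2) (Icc 0 T ×ˢ univ) := by
  intro p hp
  obtain ⟨t, x⟩ := p
  by_cases hx : x = 0
  · subst hx
    refine (contDiffWithinAt_const (c := (0 : E ι))).congr_of_eventuallyEq ?_ ?_
    · have h1 : ∀ᶠ p : ℝ × E ι in 𝓝 (t, (0 : E ι)), ‖p.2‖ ^ 2 < 1 / 2 := by
        have : Continuous fun p : ℝ × E ι => ‖p.2‖ ^ 2 := by fun_prop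
        exact this.continuousAt.eventually_lt_const (by simp)
      filter_upwards [nhdsWithin_le_nhds h1] with q hq
      show cutV W q.1 q.2 = 0
      rw [cutV, bmp_zero (Or.inl hq.le), neg_zero, zero_smul]
    · show cutV W t 0 = 0
      rw [cutV, bmp_zero (Or.inl (by simp)), neg_zero, zero_smul]
  · have h1 : ContDiffWithinAt ℝ ∞ (fun p : ℝ × E ι => W p.1 p.2) (Icc 0 T ×ˢ univ) (t, x) := by
      refine (hW (t, x) ⟨hp.1, hx⟩).mono_of_mem_nhdsWithin ?_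
      have h2 : ∀ᶠ p : ℝ × E ι in 𝓝[Icc 0 T ×ˢ univ] (t, x), p.2 ≠ 0 := by
        apply nhdsWithin_le_nhds
        exact continuousAt_snd.eventually_ne hx
      filter_upwards [h2, self_mem_nhdsWithin] with q hq hq2
      exact ⟨hq2.1, hq⟩
    have h2 : ContDiff ℝ ∞ (fun p : ℝ × E ι => -(bmp : ℝ → ℝ) (‖p.2‖ ^ 2)) := by
      have h3 : ContDiff ℝ ∞ (fun p : ℝ × E ι => ‖p.2‖ ^ 2) := contDiff_snd.norm_sq ℝ
      exact (bmp.contDiff.comp h3).neg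
    exact h2.contDiffWithinAt.smul h1

theorem cutV_tan {W : ℝ → E ι → E ι} {t : ℝ} (h : ∀ x ∈ Om ι, ⟪x, W t x⟫ = 0) (x : E ι) :
    ⟪x, cutV W t x⟫ = 0 := by
  by_cases hx : x = 0
  · rw [hx, inner_zero_left]
  · rw [cutV, inner_smul_right, h x hx, mul_zero]

theorem cutV_bounds {T : ℝ} (hT : 0 < T) {W : ℝ → E ι → E ι}
    (hW : ContDiffOn ℝ ∞ (fun p : ℝ × E ι => W p.1 p.2) (Icc 0 T ×ˢ Om ι)) :
    ∃ L K : ℝ≥0, (∀ t ∈ Icc 0 T, ∀ x, ‖cutV W t x‖ ≤ L) ∧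
      (∀ t ∈ Icc 0 T, LipschitzWith K (cutV W t)) := by
  have hs := cutV_smooth hW
  have hSm : Sm 0 (Icc 0 T) univ 1 (E ι) (cutV W) :=
    Sm.of_contDiffOn (uniqueDiffOn_Icc hT) isOpen_univ (by simp) hs 1
  have hK : IsCompact (Icc (0:ℝ) T ×ˢ Metric.closedBall (0 : E ι) 2) :=
    isCompact_Icc.prod (isCompact_closedBall _ _)
  obtain ⟨L, hL⟩ := hK.exists_bound_of_continuousOn
    (hs.continuousOn.mono (prod_mono le_rfl (subset_univ _)))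
  obtain ⟨K, hK'⟩ := hK.exists_bound_of_continuousOn
    (hSm.2.2.base.continuousOn.mono (prod_mono le_rfl (subset_univ _)))
  have hout : ∀ t (x : E ι), 2 < ‖x‖ → cutV W t x = 0 := by
    intro t x hx
    rw [cutV, bmp_zero (Or.inr (by nlinarith)), neg_zero, zero_smul]
  refine ⟨L.toNNReal, K.toNNReal, ?_, ?_⟩
  · intro t ht x
    by_cases hx : ‖x‖ ≤ 2
    · have := hL (t, x) ⟨ht, by simpa using hx⟩
      exact this.trans (Real.le_coe_toNNReal _)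
    · rw [hout t x (not_le.1 hx), norm_zero]
      exact NNReal.coe_nonneg _
  · intro t ht
    have hd : Differentiable ℝ (cutV W t) := fun x =>
      (hSm.2.1 t ht).differentiableAt Filter.univ_mem
    refine lipschitzWith_of_nnnorm_fderiv_le hd (fun x => ?_)
    by_cases hx : ‖x‖ ≤ 2
    · have := hK' (t, x) ⟨ht, by simpa using hx⟩
      rw [← NNReal.coe_le_coe]
      exact this.trans (Real.le_coe_toNNReal _)
    · have h1 : cutV W t =ᶠ[𝓝 x] fun _ => 0 := by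
        have : ∀ᶠ y : E ι in 𝓝 x, 2 < ‖y‖ :=
          continuous_norm.continuousAt.eventually_const_lt (not_le.1 hx)
        filter_upwards [this] with y hy
        exact hout t y hy
      rw [h1.fderiv_eq]
      simp

/-- solutions of tangential equations have constant norm -/
theorem norm_const {T : ℝ} {α v : ℝ → E ι}
    (hα : ∀ t ∈ Icc 0 T, HasDerivWithinAt α (v t) (Icc 0 T) t)
    (hv : ∀ t ∈ Icc 0 T, ⟪α t, v t⟫ = 0) : ∀ t ∈ Icc 0 T, ‖α t‖ = ‖α 0‖ := by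
  have h1 : ∀ t ∈ Icc 0 T, HasDerivWithinAt (fun t => ‖α t‖ ^ 2) 0 (Icc 0 T) t := by
    intro t ht
    have := (hα t ht).norm_sq
    rwa [hv t ht, mul_zero] at this
  have h2 := constant_of_has_deriv_right_zero (f := fun t => ‖α t‖ ^ 2) (a := 0) (b := T)
    (fun t ht => (h1 t ht).continuousWithinAt)
    (fun t ht => (h1 t ⟨ht.1, ht.2.le⟩).mono_of_mem_nhdsWithin (Icc_mem_nhdsGE_of_mem ht))
  intro t ht
  have h3 : ‖α t‖ ^ 2 = ‖α 0‖ ^ 2 := h2 t ht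
  exact (pow_left_inj₀ (norm_nonneg _) (norm_nonneg _) (by norm_num)).1 h3

theorem flow_part1 {T : ℝ} {W : ℝ → E ι → E ι} (hT : 0 < T)
    (hW : ContDiffOn ℝ ∞ (fun p : ℝ × E ι => W p.1 p.2) (Icc 0 T ×ˢ Om ι))
    (htan : ∀ t ∈ Icc 0 T, ∀ x ∈ Om ι, ⟪x, W t x⟫ = 0)
    (hhom : ∀ t ∈ Icc 0 T, ∀ c : ℝ, 0 < c → ∀ x ∈ Om ι, W t (c • x) = c • W t x) :
    ∃ φ : ℝ → E ι → E ι,
      ContDiffOn ℝ ∞ (fun p : ℝ × E ι => φ p.1 p.2) (Icc 0 T ×ˢ Om ι) ∧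
      (∀ x ∈ Om ι, φ 0 x = x) ∧
      (∀ t ∈ Icc 0 T, ∀ x ∈ Om ι,
        HasDerivWithinAt (fun s => φ s x) (- W t (φ t x)) (Icc 0 T) t) ∧
      (∀ t ∈ Icc 0 T, ∀ x ∈ Om ι, ‖φ t x‖ = ‖x‖) ∧
      (∀ t ∈ Icc 0 T, ∀ c : ℝ, 0 < c → ∀ x ∈ Om ι, φ t (c • x) = c • φ t x) ∧
      (∀ t₁ ∈ Icc 0 T, ∀ α : ℝ → E ι, (∀ t ∈ Icc 0 t₁, α t ∈ Om ι) →
        (∀ t ∈ Icc 0 t₁, HasDerivWithinAt α (- W t (α t)) (Icc 0 t₁) t) → α t₁ = φ t₁ (α 0)) := by
  obtain ⟨L, K, hL, hK⟩ := cutV_bounds hT hW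
  obtain ⟨φ, hsm, h0, hode⟩ := exists_flow hT (cutV_smooth hW) hL hK
  have hn1 : ∀ x : E ι, ∀ t ∈ Icc 0 T, ‖φ t x‖ = ‖x‖ := by
    intro x t ht
    have := norm_const (fun t ht => hode t ht x) (fun t ht => cutV_tan (htan t ht) _) t ht
    rwa [h0] at this
  have hVW : ∀ t, ∀ y : E ι, ‖y‖ = 1 → cutV W t y = - W t y := by
    intro t y hy
    rw [cutV, hy, one_pow, bmp_one, neg_smul, one_smul]
  have hunit : ∀ x ∈ Om ι, ‖‖x‖⁻¹ • x‖ = 1 := by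
    intro x hx
    have : ‖x‖ ≠ 0 := norm_ne_zero_iff.2 hx
    rw [norm_smul, norm_inv, norm_norm, inv_mul_cancel₀ this]
  have hOm : ∀ y : E ι, ‖y‖ = 1 → y ∈ Om ι := by
    intro y hy h
    rw [h, norm_zero] at hy
    exact zero_ne_one hy
  have hback : ∀ x ∈ Om ι, ‖x‖ • (‖x‖⁻¹ • x) = x := by
    intro x hx
    have : ‖x‖ ≠ 0 := norm_ne_zero_iff.2 hx
    rw [smul_smul, mul_inv_cancel₀ this, one_smul]
  refine ⟨fun t x => ‖x‖ • φ t (‖x‖⁻¹ • x), ?_, ?_, ?_, ?_, ?_, ?_⟩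
  · intro p hp
    have hx : p.2 ≠ 0 := hp.2
    have h1 : ContDiffAt ℝ ∞ (fun q : ℝ × E ι => ‖q.2‖) p := contDiffAt_snd.norm ℝ hx
    have h2 : ContDiffAt ℝ ∞ (fun q : ℝ × E ι => (q.1, ‖q.2‖⁻¹ • q.2)) p :=
      contDiffAt_fst.prodMk ((h1.inv (norm_ne_zero_iff.2 hx)).smul contDiffAt_snd)
    have h3 : ContDiffWithinAt ℝ ∞ (fun q : ℝ × E ι => φ q.1 (‖q.2‖⁻¹ • q.2))
        (Icc 0 T ×ˢ Om ι) p :=
      ContDiffWithinAt.comp (g := fun q : ℝ × E ι => φ q.1 q.2)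
        (f := fun q : ℝ × E ι => (q.1, ‖q.2‖⁻¹ • q.2)) (s := Icc 0 T ×ˢ Om ι)
        (t := Icc 0 T ×ˢ (univ : Set (E ι))) p
        (hsm (p.1, ‖p.2‖⁻¹ • p.2) ⟨hp.1, mem_univ _⟩) h2.contDiffWithinAt
        (fun q hq => ⟨hq.1, mem_univ _⟩)
    exact h1.contDiffWithinAt.smul h3
  · intro x hx
    show ‖x‖ • φ 0 (‖x‖⁻¹ • x) = x
    rw [h0, hback x hx]
  · intro t ht x hx
    have h1 := (hode t ht (‖x‖⁻¹ • x)).const_smul ‖x‖
    have h2 : ‖φ t (‖x‖⁻¹ • x)‖ = 1 := by rw [hn1 _ t ht, hunit x hx]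
    have h3 : ‖x‖ • cutV W t (φ t (‖x‖⁻¹ • x)) = - W t (‖x‖ • φ t (‖x‖⁻¹ • x)) := by
      rw [hVW t _ h2, hhom t ht _ (norm_pos_iff.2 hx) _ (hOm _ h2), smul_neg]
    rw [h3] at h1
    exact h1
  · intro t ht x hx
    show ‖‖x‖ • φ t (‖x‖⁻¹ • x)‖ = ‖x‖
    rw [norm_smul, norm_norm, hn1 _ t ht, hunit x hx, mul_one]
  · intro t _ c hc x hx
    show ‖c • x‖ • φ t (‖c • x‖⁻¹ • c • x) = c • ‖x‖ • φ t (‖x‖⁻¹ • x)
    have e : ‖c • x‖⁻¹ • c • x = ‖x‖⁻¹ • x := by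
      rw [norm_smul, Real.norm_of_nonneg hc.le, smul_smul, mul_inv, mul_assoc,
        mul_comm ‖x‖⁻¹ c, ← mul_assoc, inv_mul_cancel₀ hc.ne', one_mul]
    rw [e, norm_smul, Real.norm_of_nonneg hc.le, mul_smul]
  · intro t₁ ht₁ α hαO hα
    have hsub : Icc 0 t₁ ⊆ Icc 0 T := Icc_subset_Icc le_rfl ht₁.2
    have h0m : (0 : ℝ) ∈ Icc 0 t₁ := ⟨le_rfl, ht₁.1⟩
    have h1m : t₁ ∈ Icc 0 t₁ := ⟨ht₁.1, le_rfl⟩
    have hx : α 0 ∈ Om ι := hαO 0 h0m
    have hr : ‖α 0‖ ≠ 0 := norm_ne_zero_iff.2 hx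
    have hrp : 0 < ‖α 0‖⁻¹ := inv_pos.2 (norm_pos_iff.2 hx)
    have hnα : ∀ t ∈ Icc 0 t₁, ‖α t‖ = ‖α 0‖ := norm_const hα (fun t ht => by
      rw [inner_neg_right, htan t (hsub ht) _ (hαO t ht), neg_zero])
    have h1 : ∀ t ∈ Icc 0 t₁, HasDerivWithinAt (fun s => ‖α 0‖⁻¹ • α s)
        (cutV W t (‖α 0‖⁻¹ • α t)) (Icc 0 t₁) t := by
      intro t ht
      have h2 := (hα t ht).const_smul ‖α 0‖⁻¹
      have h3 : ‖‖α 0‖⁻¹ • α t‖ = 1 := by
        rw [norm_smul, norm_inv, norm_norm, hnα t ht, inv_mul_cancel₀ hr]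
      have h4 : ‖α 0‖⁻¹ • -W t (α t) = cutV W t (‖α 0‖⁻¹ • α t) := by
        rw [hVW t _ h3, hhom t (hsub ht) _ hrp _ (hαO t ht), smul_neg]
      rw [h4] at h2
      exact h2
    have h2 : ∀ t ∈ Icc 0 t₁, HasDerivWithinAt (fun s => φ s (‖α 0‖⁻¹ • α 0))
        (cutV W t (φ t (‖α 0‖⁻¹ • α 0))) (Icc 0 t₁) t := fun t ht =>
      (hode t (hsub ht) _).mono hsub
    have h3 := flow_dist (fun t ht => hK t (hsub ht)) h1 h2 t₁ h1m
    rw [h0, dist_self, zero_mul] at h3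
    have h4 : ‖α 0‖⁻¹ • α t₁ = φ t₁ (‖α 0‖⁻¹ • α 0) := dist_le_zero.1 h3
    show α t₁ = ‖α 0‖ • φ t₁ (‖α 0‖⁻¹ • α 0)
    rw [← h4, smul_smul, mul_inv_cancel₀ hr, one_smul]

theorem flow : FlowStatement := by
  intro ι _ _ T W hT hW htan hhom
  obtain ⟨φ, hsm, h0, hode, hn, hh, huniq⟩ := flow_part1 hT hW htan hhom
  have hOo : IsOpen (Om ι) := isOpen_ne
  have hOm : ∀ t ∈ Icc 0 T, ∀ x ∈ Om ι, φ t x ∈ Om ι := by
    intro t ht x hx h
    have := hn t ht x hx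
    rw [h, norm_zero] at this
    exact hx (norm_eq_zero.1 this.symm)
  -- the inverse flow
  have hinv : ∀ t₀ ∈ Icc 0 T, 0 < t₀ → ∃ ψ : E ι → E ι, ContDiffOn ℝ ∞ ψ (Om ι) ∧
      (∀ y ∈ Om ι, ψ y ∈ Om ι) ∧ (∀ x ∈ Om ι, ψ (φ t₀ x) = x) ∧
      (∀ y ∈ Om ι, φ t₀ (ψ y) = y) := by
    intro t₀ ht₀ hpos
    have hrev : ∀ s ∈ Icc 0 t₀, t₀ - s ∈ Icc 0 T := fun s hs =>
      ⟨by linarith [hs.2], by linarith [hs.1, ht₀.2]⟩
    have hrev' : ∀ s ∈ Icc 0 t₀, t₀ - s ∈ Icc 0 t₀ := fun s hs =>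
      ⟨by linarith [hs.2], by linarith [hs.1]⟩
    obtain ⟨ψ, gsm, g0, gode, gn, gh, guniq⟩ := flow_part1 (T := t₀)
      (W := fun s x => - W (t₀ - s) x) hpos (by
        have h1 : ContDiff ℝ ∞ (fun p : ℝ × E ι => (t₀ - p.1, p.2)) := by fun_prop
        exact (hW.comp h1.contDiffOn (fun p hp => ⟨hrev _ hp.1, hp.2⟩)).neg)
      (fun t ht x hx => by rw [inner_neg_right, htan _ (hrev t ht) x hx, neg_zero])
      (fun t ht c hc x hx => by rw [hhom _ (hrev t ht) c hc x hx, smul_neg])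
    have gOm : ∀ t ∈ Icc 0 t₀, ∀ x ∈ Om ι, ψ t x ∈ Om ι := by
      intro t ht x hx h
      have := gn t ht x hx
      rw [h, norm_zero] at this
      exact hx (norm_eq_zero.1 this.symm)
    have hd : ∀ s : ℝ, HasDerivWithinAt (fun s : ℝ => t₀ - s) (-1) (Icc 0 t₀) s := fun s => by
      simpa using ((hasDerivAt_id s).const_sub t₀).hasDerivWithinAt
    have t0m : t₀ ∈ Icc 0 t₀ := ⟨hpos.le, le_rfl⟩
    refine ⟨ψ t₀, ?_, fun y hy => gOm t₀ t0m y hy, ?_, ?_⟩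
    · have h1 : ContDiff ℝ ∞ (fun x : E ι => (t₀, x)) := by fun_prop
      exact gsm.comp h1.contDiffOn (fun x hx => ⟨t0m, hx⟩)
    · intro x hx
      have h1 := guniq t₀ t0m (fun s => φ (t₀ - s) x)
        (fun t ht => hOm _ (hrev t ht) x hx) (by
          intro t ht
          have h2 := ((hode _ (hrev t ht) x hx).mono
            (Icc_subset_Icc le_rfl ht₀.2)).scomp t (hd t) (fun s hs => hrev' s hs)
          have e : (-1 : ℝ) • -W (t₀ - t) (φ (t₀ - t) x) =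
            - -W (t₀ - t) (φ (t₀ - t) x) := by rw [neg_one_smul]
          rw [e] at h2
          exact h2)
      simp only [sub_self, sub_zero] at h1
      rw [h0 x hx] at h1
      exact h1.symm
    · intro y hy
      have h1 := huniq t₀ ht₀ (fun s => ψ (t₀ - s) y)
        (fun t ht => gOm _ (hrev' t ht) y hy) (by
          intro t ht
          have h2 := (gode _ (hrev' t ht) y hy).scomp t (hd t) (fun s hs => hrev' s hs)
          have e : (-1 : ℝ) • - -W (t₀ - (t₀ - t)) (ψ (t₀ - t) y) =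
            -W t (ψ (t₀ - t) y) := by rw [sub_sub_cancel, neg_one_smul, neg_neg]
          rw [e] at h2
          exact h2)
      simp only [sub_self, sub_zero] at h1
      rw [g0 y hy] at h1
      exact h1.symm
  have hdiff : ∀ t ∈ Icc 0 T, ∀ x ∈ Om ι, DifferentiableAt ℝ (φ t) x := by
    intro t ht x hx
    have h1 : ContDiff ℝ ∞ (fun x : E ι => (t, x)) := by fun_prop
    have h2 : ContDiffOn ℝ ∞ (φ t) (Om ι) :=
      hsm.comp h1.contDiffOn (fun x hx => ⟨ht, hx⟩)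
    exact (h2.differentiableOn (by simp)).differentiableAt (hOo.mem_nhds hx)
  refine ⟨φ, hsm, h0, hode, hn, hh, ?_, ?_⟩
  · intro t ht x hx
    rcases eq_or_lt_of_le ht.1 with h | h
    · subst h
      have h1 : φ 0 =ᶠ[𝓝 x] id := by
        filter_upwards [hOo.mem_nhds hx] with y hy
        exact h0 y hy
      rw [h1.fderiv_eq, fderiv_id]
      exact ⟨ContinuousLinearEquiv.refl ℝ _, rfl⟩
    · obtain ⟨ψ, gsm, gO, g1, g2⟩ := hinv t ht h
      have d1 : HasFDerivAt (φ t) (fderiv ℝ (φ t) x) x := (hdiff t ht x hx).hasFDerivAt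
      have hy : φ t x ∈ Om ι := hOm t ht x hx
      have d2 : HasFDerivAt ψ (fderiv ℝ ψ (φ t x)) (φ t x) :=
        ((gsm.differentiableOn (by simp)).differentiableAt (hOo.mem_nhds hy)).hasFDerivAt
      have e1 : (fderiv ℝ ψ (φ t x)).comp (fderiv ℝ (φ t) x) = ContinuousLinearMap.id ℝ _ := by
        have h1 := d2.comp x d1
        have h2 : ψ ∘ φ t =ᶠ[𝓝 x] id := by
          filter_upwards [hOo.mem_nhds hx] with y hy
          exact g1 y hy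
        exact (h1.congr_of_eventuallyEq h2.symm).unique (hasFDerivAt_id x)
      have e2 : (fderiv ℝ (φ t) x).comp (fderiv ℝ ψ (φ t x)) = ContinuousLinearMap.id ℝ _ := by
        have d1' : HasFDerivAt (φ t) (fderiv ℝ (φ t) x) (ψ (φ t x)) := by
          rw [g1 x hx]; exact d1
        have h1 := d1'.comp (φ t x) d2
        have h2 : φ t ∘ ψ =ᶠ[𝓝 (φ t x)] id := by
          filter_upwards [hOo.mem_nhds hy] with y hy
          exact g2 y hy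
        exact (h1.congr_of_eventuallyEq h2.symm).unique (hasFDerivAt_id _)
      exact ⟨ContinuousLinearEquiv.equivOfInverse (fderiv ℝ (φ t) x) (fderiv ℝ ψ (φ t x))
        (fun v => congrArg (fun L => L v) e1) (fun v => congrArg (fun L => L v) e2), rfl⟩
  · intro t ht y hy
    rcases eq_or_lt_of_le ht.1 with h | h
    · subst h
      exact ⟨y, hy, h0 y hy⟩
    · obtain ⟨ψ, gsm, gO, g1, g2⟩ := hinv t ht h
      exact ⟨ψ y, gO y hy, g2 y hy⟩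

end Pool.Agent.RF.H13
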