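import Pool.Agent.Helper13_RF.Nem

/-!
# Smooth flows of bounded Lipschitz time dependent vector fields (helper13, MP_a23110_gt)
-/

noncomputable section

open scoped ContDiff Topology NNReal
set_option maxSynthPendingDepth 3
set_option linter.unusedSectionVars false
open Set

namespace Pool.Agent.RF.H13

variable {T : ℝ} {Z : Type} [NormedAddCommGroup Z] [NormedSpace ℝ Z]

/-- constants -/
def cstL : Z →L[ℝ] C(TI T, Z) :=
  LinearMap.mkContinuous
    { toFun := fun x => ContinuousMap.const _ x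
      map_add' := fun _ _ => rfl
      map_smul' := fun _ _ => rfl } 1 (by
      intro x
      rw [one_mul]
      exact (ContinuousMap.norm_le _ (norm_nonneg _)).2 (fun t => le_rfl))

@[simp] theorem cstL_apply (x : Z) (t : TI T) : cstL x t = x := rfl

/-- exchange of arguments -/
def swapL (X : Type) [NormedAddCommGroup X] [NormedSpace ℝ X] [FiniteDimensional ℝ X] :
    (X →L[ℝ] C(TI T, Z)) →L[ℝ] C(TI T, X →L[ℝ] Z) :=
  ∑ i, ((ContinuousLinearMap.smulRightL ℝ X Z
    (LinearMap.toContinuousLinearMap ((Module.finBasis ℝ X).coord i))).compLeftContinuous ℝ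
      (TI T)).comp (ContinuousLinearMap.apply ℝ _ (Module.finBasis ℝ X i))

theorem swapL_apply (X : Type) [NormedAddCommGroup X] [NormedSpace ℝ X] [FiniteDimensional ℝ X]
    (m : X →L[ℝ] C(TI T, Z)) (t : TI T) (v : X) : swapL X m t v = m v t := by
  have h1 : swapL X m t v =
      ∑ i, (Module.finBasis ℝ X).coord i v • m (Module.finBasis ℝ X i) t := by
    simp only [swapL, sum_apply, ContinuousMap.sum_apply]
    rfl
  rw [h1]
  have h2 : m v = ∑ i, (Module.finBasis ℝ X).coord i v • m (Module.finBasis ℝ X i) := by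
    have h3 := congrArg m ((Module.finBasis ℝ X).sum_repr v)
    rw [map_sum] at h3
    rw [← h3]
    exact Finset.sum_congr rfl (fun i _ => map_smul m _ _)
  rw [h2]
  simp [ContinuousMap.sum_apply]

/-- smooth maps into `C([0,T],Z)` have jointly continuous spatial derivatives -/
theorem Sm.of_eval {X : Type} [NormedAddCommGroup X] [NormedSpace ℝ X] [FiniteDimensional ℝ X]
    (hT : 0 < T) : ∀ (j : ℕ) {Z : Type} [NormedAddCommGroup Z] [NormedSpace ℝ Z]
    {Γ : X → C(TI T, Z)}, ContDiff ℝ ∞ Γ →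
    Sm 0 (Icc 0 T) univ j Z (fun t x => Γ x (projIcc 0 T hT.le t)) := by
  have main : ∀ {Z : Type} [NormedAddCommGroup Z] [NormedSpace ℝ Z]
    {Γ : X → C(TI T, Z)}, ContDiff ℝ ∞ Γ →
    ContDiffOn ℝ 0 (fun p : ℝ × X => Γ p.2 (projIcc 0 T hT.le p.1)) (Icc 0 T ×ˢ univ) := by
    intro Z _ _ Γ hΓ
    rw [contDiffOn_zero]
    apply Continuous.continuousOn
    have h1 : Continuous fun p : ℝ × X => (Γ p.2, projIcc 0 T hT.le p.1) :=
      (hΓ.continuous.comp continuous_snd).prodMk (continuous_projIcc.comp continuous_fst)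
    exact (continuous_eval (F := C(TI T, Z))).comp h1
  intro j
  induction j with
  | zero => intro Z _ _ Γ hΓ; exact main hΓ
  | succ j ih =>
    intro Z _ _ Γ hΓ
    have hder : ∀ t : ℝ, ∀ x, HasFDerivAt (fun x => Γ x (projIcc 0 T hT.le t))
        (swapL X (fderiv ℝ Γ x) (projIcc 0 T hT.le t)) x := by
      intro t x
      have h1 : HasFDerivAt Γ (fderiv ℝ Γ x) x :=
        (hΓ.differentiable (by simp) x).hasFDerivAt
      have h2 := (ContinuousMap.evalCLM ℝ (M := Z) (projIcc 0 T hT.le t)).hasFDerivAt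
        (x := Γ x)
      have h3 := h2.comp x h1
      have e : (ContinuousMap.evalCLM ℝ (M := Z) (projIcc 0 T hT.le t)).comp (fderiv ℝ Γ x) =
          swapL X (fderiv ℝ Γ x) (projIcc 0 T hT.le t) := by
        ext v
        rw [swapL_apply]
        rfl
      rw [← e]
      exact h3
    refine ⟨main hΓ, fun t _ x _ => (hder t x).differentiableAt.differentiableWithinAt, ?_⟩
    have h4 : (fun (t : ℝ) (x : X) => fderiv ℝ (fun x => Γ x (projIcc 0 T hT.le t)) x) =
        fun t x => (swapL X (fderiv ℝ Γ x)) (projIcc 0 T hT.le t) := by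
      funext t x
      exact (hder t x).fderiv
    rw [h4]
    exact ih ((swapL (T := T) (Z := Z) X).contDiff.comp (contDiff_infty_iff_fderiv.1 hΓ).2)

/-- Gronwall -/
theorem flow_dist {K : ℝ≥0} {V : ℝ → Z → Z} (hK : ∀ t ∈ Icc 0 T, LipschitzWith K (V t))
    {α β : ℝ → Z} (hα : ∀ t ∈ Icc 0 T, HasDerivWithinAt α (V t (α t)) (Icc 0 T) t)
    (hβ : ∀ t ∈ Icc 0 T, HasDerivWithinAt β (V t (β t)) (Icc 0 T) t) :
    ∀ t ∈ Icc 0 T, dist (α t) (β t) ≤ dist (α 0) (β 0) * Real.exp (K * t) := by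
  have h := dist_le_of_trajectories_ODE_of_mem (v := V) (K := K) (s := fun _ => univ)
    (f := α) (g := β) (a := 0) (b := T) (δ := dist (α 0) (β 0))
    (fun t ht => (hK t ⟨ht.1, ht.2.le⟩).lipschitzOnWith)
    (fun t ht => (hα t ht).continuousWithinAt)
    (fun t ht => (hα t ⟨ht.1, ht.2.le⟩).mono_of_mem_nhdsWithin (Icc_mem_nhdsGE_of_mem ht))
    (fun t _ => mem_univ _)
    (fun t ht => (hβ t ht).continuousWithinAt)
    (fun t ht => (hβ t ⟨ht.1, ht.2.le⟩).mono_of_mem_nhdsWithin (Icc_mem_nhdsGE_of_mem ht))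
    (fun t _ => mem_univ _) le_rfl
  intro t ht
  simpa using h t ht

theorem exists_flow [FiniteDimensional ℝ Z] (hT : 0 < T) {V : ℝ → Z → Z}
    (hV : ContDiffOn ℝ ∞ (fun p : ℝ × Z => V p.1 p.2) (Icc 0 T ×ˢ univ))
    {L K : ℝ≥0} (hL : ∀ t ∈ Icc 0 T, ∀ x, ‖V t x‖ ≤ L)
    (hK : ∀ t ∈ Icc 0 T, LipschitzWith K (V t)) :
    ∃ φ : ℝ → Z → Z, ContDiffOn ℝ ∞ (fun p : ℝ × Z => φ p.1 p.2) (Icc 0 T ×ˢ univ) ∧
      (∀ x, φ 0 x = x) ∧
      (∀ t ∈ Icc 0 T, ∀ x, HasDerivWithinAt (fun s => φ s x) (V t (φ t x)) (Icc 0 T) t) := by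
  have : CompleteSpace Z := FiniteDimensional.complete ℝ Z
  have hI : UniqueDiffOn ℝ (Icc 0 T) := uniqueDiffOn_Icc hT
  have hSmV : ∀ j, Sm 0 (Icc 0 T) univ j Z V := fun j =>
    Sm.of_contDiffOn hI isOpen_univ (by simp) hV j
  have hex : ∀ x : Z, ∃ α : ℝ → Z, α 0 = x ∧
      ∀ t ∈ Icc 0 T, HasDerivWithinAt α (V t (α t)) (Icc 0 T) t := by
    intro x
    have hPL : IsPicardLindelof V (tmin := 0) (tmax := T) ⟨0, le_rfl, hT.le⟩ x
        (L * T.toNNReal) 0 L K := by
      refine ⟨fun t ht => (hK t ht).lipschitzOnWith, fun y _ => ?_, fun t ht y _ => hL t ht y, ?_⟩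
      · have h1 : ContinuousOn (fun t : ℝ => ((t, y) : ℝ × Z)) (Icc 0 T) := by fun_prop
        exact hV.continuousOn.comp h1 (fun t ht => ⟨ht, mem_univ _⟩)
      · simp [hT.le]
    exact hPL.exists_eq_forall_mem_Icc_hasDerivWithinAt (by simp)
  choose φ hφ0 hφ using hex
  let Γ : Z → C(TI T, Z) := fun x => ⟨fun t => φ x t, by
    have h1 : ContinuousOn (φ x) (Icc 0 T) := fun t ht => (hφ x t ht).continuousWithinAt
    exact h1.comp_continuous continuous_subtype_val (fun t => t.2)⟩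
  have hΓ : ∀ x (t : TI T), Γ x t = φ x t := fun _ _ => rfl
  have hΓlip : ∀ x y, dist (Γ x) (Γ y) ≤ dist x y * Real.exp (K * T) := by
    intro x y
    refine (ContinuousMap.dist_le (by positivity)).2 (fun t => ?_)
    have h1 := flow_dist hK (hφ x) (hφ y) t t.2
    rw [hφ0, hφ0] at h1
    refine h1.trans ?_
    gcongr
    exact t.2.2
  have hΓc : Continuous Γ := by
    have : LipschitzWith (Real.exp (K * T)).toNNReal Γ := by
      apply LipschitzWith.of_dist_le_mul
      intro x y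
      rw [Real.coe_toNNReal _ (Real.exp_pos _).le, mul_comm]
      exact hΓlip x y
    exact this.continuous
  let G : C(TI T, Z) → C(TI T, Z) := fun γ => γ - volt hT (nem V (hSmV 0).base.continuousOn γ)
  have hGsm : ContDiff ℝ ∞ G := by
    rw [contDiff_infty]
    intro n
    have h1 : ContDiff ℝ n (fun γ => volt hT (nem V (hSmV 0).base.continuousOn γ)) :=
      ContDiff.comp (g := (volt hT : C(TI T, Z) →L[ℝ] C(TI T, Z)))
        (ContinuousLinearMap.contDiff _) (nem_contDiff n hSmV)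
    exact contDiff_id.sub h1
  have hGd : ∀ γ, HasFDerivAt G ((1 : C(TI T, Z) →L[ℝ] C(TI T, Z)) - (volt hT).comp
      (appL (nem (fun t x => fderiv ℝ (V t) x) (hSmV 1).2.2.base.continuousOn γ))) γ := by
    intro γ
    have h1 : HasFDerivAt (fun γ => volt hT (nem V (hSmV 0).base.continuousOn γ))
        ((volt hT).comp
      (appL (nem (fun t x => fderiv ℝ (V t) x) (hSmV 1).2.2.base.continuousOn γ))) γ :=
      HasFDerivAt.comp (g := (volt hT : C(TI T, Z) →L[ℝ] C(TI T, Z))) γ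
        (ContinuousLinearMap.hasFDerivAt _) (nem_hasFDerivAt (hSmV 1) γ)
    exact (hasFDerivAt_id γ).sub h1
  have hGΓ : ∀ x, G (Γ x) = cstL x := by
    intro x
    ext t
    show φ x t - volt hT (nem V _ (Γ x)) t = x
    rw [volt_apply]
    have hsub : uIcc (0 : ℝ) t ⊆ Icc 0 T := by
      rw [uIcc_of_le t.2.1]; exact Icc_subset_Icc le_rfl t.2.2
    have h1 := ODE.picard_eq_of_hasDerivAt (f := V) (α := φ x) (t₀ := 0) (t := t) (u := univ)
      (hV.continuousOn.mono (prod_mono hsub le_rfl))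
      (fun s hs => (hφ x s (hsub hs)).mono hsub) (fun _ _ => mem_univ _)
    rw [ODE.picard_apply, hφ0] at h1
    have h2 : ∫ s in (0:ℝ)..t, extI hT (nem V (hSmV 0).base.continuousOn (Γ x)) s =
        ∫ s in (0:ℝ)..t, V s (φ x s) := by
      apply intervalIntegral.integral_congr
      intro s hs
      have := extI_of_mem hT (nem V (hSmV 0).base.continuousOn (Γ x)) ⟨s, hsub hs⟩
      exact this
    rw [h2, ← h1]
    abel
  have hΓsm : ContDiff ℝ ∞ Γ := by
    rw [contDiff_iff_contDiffAt]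
    intro x₀
    have hu := isUnit_one_sub_volt hT
      (nem (fun t x => fderiv ℝ (V t) x) (hSmV 1).2.2.base.continuousOn (Γ x₀))
    obtain ⟨u, hu⟩ := hu
    have hf' : HasFDerivAt G ((ContinuousLinearEquiv.ofUnit u : C(TI T, Z) ≃L[ℝ] C(TI T, Z)) :
        C(TI T, Z) →L[ℝ] C(TI T, Z)) (Γ x₀) := by
      have h1 := hGd (Γ x₀)
      rw [← hu] at h1
      exact h1
    have hf : ContDiffAt ℝ ∞ G (Γ x₀) := hGsm.contDiffAt
    have hn : (∞ : WithTop ℕ∞) ≠ 0 := by simp
    have h2 := hf.to_localInverse hf' hn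
    have h3 : ContDiffAt ℝ ∞ (fun x => hf.localInverse hf' hn (cstL x)) x₀ := by
      have : ContDiffAt ℝ ∞ (cstL : Z →L[ℝ] C(TI T, Z)) x₀ :=
        (ContinuousLinearMap.contDiff (cstL : Z →L[ℝ] C(TI T, Z))).contDiffAt
      rw [hGΓ] at h2
      exact h2.comp x₀ this
    refine h3.congr_of_eventuallyEq ?_
    have h4 : ∀ᶠ γ in 𝓝 (Γ x₀), hf.localInverse hf' hn (G γ) = γ :=
      (hf.hasStrictFDerivAt' hf' hn).eventually_left_inverse
    filter_upwards [hΓc.continuousAt.eventually h4] with x hx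
    rw [hGΓ] at hx
    exact hx.symm
  refine ⟨fun t x => φ x t, ?_, hφ0, fun t ht x => hφ x t ht⟩
  have hw0 : ∀ j, Sm 0 (Icc 0 T) univ j Z (fun t x => φ x t) := by
    intro j
    refine (Sm.of_eval hT j hΓsm).congr isOpen_univ ?_
    intro t ht x _
    rw [hΓ, projIcc_of_mem hT.le ht]
  have key : ∀ k : ℕ, ∀ j : ℕ, Sm k (Icc 0 T) univ j Z (fun t x => φ x t) := by
    intro k
    induction k with
    | zero => intro j; exact_mod_cast hw0 j
    | succ k ih =>
      intro j
      have e : ((k + 1 : ℕ) : WithTop ℕ∞) = (k : WithTop ℕ∞) + 1 := by norm_cast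
      rw [e]
      refine Sm.step hI (convex_Icc 0 T) isOpen_univ j ih (g := fun t x => V t (φ x t)) ?_
        (fun t ht x _ => hφ x t ht)
      intro j
      refine (ih j).comp hI isOpen_univ (by exact_mod_cast le_top)
        (Ψ := fun q : ℝ × Z × Z => V q.1 q.2.2) (O := univ) isOpen_univ ?_
        (fun _ _ _ _ => mem_univ _)
      have e : ContDiff ℝ ∞ (fun q : ℝ × Z × Z => ((q.1, q.2.2) : ℝ × Z)) := by fun_prop
      exact hV.comp e.contDiffOn (fun p hp => ⟨hp.1, mem_univ _⟩)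
  rw [contDiffOn_infty]
  intro k
  exact (key k 0).base

end Pool.Agent.RF.H13
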