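import Pool.Agent.Helper13_RF.Sm

/-!
# Nemytskii and Volterra operators on `C([0,T], Z)` (helper13, MP_a23110_gt)
-/

noncomputable section

open scoped ContDiff Topology
set_option maxSynthPendingDepth 3
set_option linter.unusedSectionVars false
open Set

namespace Pool.Agent.RF.H13

/-- trivially smooth: a jointly smooth function has all `Sm` properties -/
theorem Sm.of_contDiffOn {X : Type} [NormedAddCommGroup X] [NormedSpace ℝ X] {I : Set ℝ}
    {U : Set X} {Z : Type} [NormedAddCommGroup Z] [NormedSpace ℝ Z] {k : WithTop ℕ∞}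
    (hI : UniqueDiffOn ℝ I) (hU : IsOpen U) (hk : k ≤ ∞) {V : ℝ → X → Z}
    (hV : ContDiffOn ℝ ∞ (fun p : ℝ × X => V p.1 p.2) (I ×ˢ U)) (j : ℕ) : Sm k I U j Z V := by
  have h0 : ∀ {Z : Type} [NormedAddCommGroup Z] [NormedSpace ℝ Z],
      Sm k I U j Z (fun _ _ => (0 : Z)) := by
    induction j with
    | zero => intro Z _ _; exact contDiffOn_const
    | succ j ih =>
      intro Z _ _
      refine ⟨contDiffOn_const, fun t ht => differentiableOn_const _, ?_⟩
      have : (fun (_ : ℝ) (x : X) => fderiv ℝ (fun _ : X => (0 : Z)) x) = fun _ _ => 0 := by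
        funext t x; simp
      rw [this]
      exact ih
  have h1 := (h0 (Z := ℝ)).comp hI hU hk (Ψ := fun q : ℝ × X × ℝ => V q.1 q.2.1)
    (O := U ×ˢ univ) (hU.prod isOpen_univ) (by
      have e : ContDiff ℝ ∞ (fun q : ℝ × X × ℝ => ((q.1, q.2.1) : ℝ × X)) := by fun_prop
      exact hV.comp e.contDiffOn (fun p hp => ⟨hp.1, hp.2.1⟩)) (fun t _ x hx => ⟨hx, mem_univ _⟩)
  exact h1

variable {T : ℝ}

/-- the time interval -/
abbrev TI (T : ℝ) := Icc (0 : ℝ) T

variable {Z Z' : Type} [NormedAddCommGroup Z] [NormedSpace ℝ Z]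
  [NormedAddCommGroup Z'] [NormedSpace ℝ Z']

/-- Nemytskii operator -/
def nem (V : ℝ → Z → Z') (hV : ContinuousOn (fun p : ℝ × Z => V p.1 p.2) (Icc 0 T ×ˢ univ))
    (γ : C(TI T, Z)) : C(TI T, Z') :=
  ⟨fun t => V t (γ t), by
    have h : Continuous (fun t : TI T => ((t : ℝ), γ t)) :=
      continuous_subtype_val.prodMk γ.continuous
    exact hV.comp_continuous h (fun t => ⟨t.2, mem_univ _⟩)⟩

@[simp] theorem nem_apply (V : ℝ → Z → Z')
    (hV : ContinuousOn (fun p : ℝ × Z => V p.1 p.2) (Icc 0 T ×ˢ univ))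
    (γ : C(TI T, Z)) (t : TI T) : nem V hV γ t = V t (γ t) := rfl

/-- pointwise application -/
def appL : C(TI T, Z →L[ℝ] Z') →L[ℝ] C(TI T, Z) →L[ℝ] C(TI T, Z') :=
  LinearMap.mkContinuous₂
    (LinearMap.mk₂ ℝ (fun (A : C(TI T, Z →L[ℝ] Z')) (h : C(TI T, Z)) =>
      (⟨fun t => A t (h t), A.continuous.clm_apply h.continuous⟩ : C(TI T, Z')))
      (fun _ _ _ => by ext t; rfl) (fun _ _ _ => by ext t; rfl)
      (fun A _ _ => by ext t; exact map_add (A t) _ _)
      (fun _ A _ => by ext t; exact map_smul (A t) _ _)) 1 (by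
      intro A h
      rw [one_mul]
      refine (ContinuousMap.norm_le _ (by positivity)).2 (fun t => ?_)
      exact ((A t).le_opNorm _).trans (mul_le_mul (A.norm_coe_le_norm t) (h.norm_coe_le_norm t)
        (norm_nonneg _) (norm_nonneg _)))

@[simp] theorem appL_apply (A : C(TI T, Z →L[ℝ] Z')) (h : C(TI T, Z)) (t : TI T) :
    appL A h t = A t (h t) := rfl

theorem nem_hasFDerivAt [FiniteDimensional ℝ Z] {V : ℝ → Z → Z'}
    (h : Sm 0 (Icc 0 T) univ 1 Z' V) (γ : C(TI T, Z)) :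
    HasFDerivAt (nem V h.base.continuousOn)
      (appL (nem (fun t x => fderiv ℝ (V t) x) h.2.2.base.continuousOn γ)) γ := by
  rw [hasFDerivAt_iff_isLittleO_nhds_zero, Asymptotics.isLittleO_iff]
  intro ε hε
  have hK : IsCompact (Icc (0:ℝ) T ×ˢ Metric.closedBall (0 : Z) (‖γ‖ + 1)) :=
    isCompact_Icc.prod (isCompact_closedBall _ _)
  have huc : UniformContinuousOn (fun p : ℝ × Z => fderiv ℝ (V p.1) p.2)
      (Icc (0:ℝ) T ×ˢ Metric.closedBall (0 : Z) (‖γ‖ + 1)) :=
    hK.uniformContinuousOn_of_continuous (h.2.2.base.continuousOn.mono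
      (prod_mono le_rfl (subset_univ _)))
  rw [Metric.uniformContinuousOn_iff] at huc
  obtain ⟨δ, hδ, hu⟩ := huc ε hε
  filter_upwards [Metric.ball_mem_nhds (0 : C(TI T, Z)) (lt_min hδ one_pos)] with η hη
  rw [Metric.mem_ball, dist_zero_right] at hη
  refine (ContinuousMap.norm_le _ (by positivity)).2 (fun t => ?_)
  show ‖V t (γ t + η t) - V t (γ t) - fderiv ℝ (V t) (γ t) (η t)‖ ≤ ε * ‖η‖
  have hηt : ‖η t‖ ≤ ‖η‖ := η.norm_coe_le_norm t
  have hγt : ‖γ t‖ ≤ ‖γ‖ := γ.norm_coe_le_norm t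
  have hη1 : ‖η‖ < 1 := lt_of_lt_of_le hη (min_le_right _ _)
  have hη2 : ‖η‖ < δ := lt_of_lt_of_le hη (min_le_left _ _)
  have hmv := (convex_closedBall (γ t) ‖η t‖).norm_image_sub_le_of_norm_hasFDerivWithin_le'
    (f := V t) (f' := fun z => fderiv ℝ (V t) z) (φ := fderiv ℝ (V t) (γ t)) (C := ε)
    (x := γ t) (y := γ t + η t) ?_ ?_ (Metric.mem_closedBall_self (norm_nonneg _)) (by
      rw [Metric.mem_closedBall, dist_eq_norm]; simp)
  · rw [add_sub_cancel_left] at hmv
    exact hmv.trans (mul_le_mul_of_nonneg_left hηt hε.le)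
  · intro z _
    exact ((h.2.1 t t.2).differentiableAt Filter.univ_mem).hasFDerivAt.hasFDerivWithinAt
  · intro z hz
    rw [Metric.mem_closedBall, dist_eq_norm] at hz
    have := hu ((t : ℝ), z) ⟨t.2, ?_⟩ ((t : ℝ), γ t) ⟨t.2, ?_⟩ ?_
    · rw [dist_eq_norm] at this
      exact this.le
    · rw [Metric.mem_closedBall, dist_zero_right]
      calc ‖z‖ = ‖(z - γ t) + γ t‖ := by rw [sub_add_cancel]
        _ ≤ ‖z - γ t‖ + ‖γ t‖ := norm_add_le _ _
        _ ≤ ‖γ‖ + 1 := by linarith
    · rw [Metric.mem_closedBall, dist_zero_right]; linarith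
    · rw [Prod.dist_eq, dist_self, dist_eq_norm]
      simp only
      exact max_lt hδ (by linarith)

theorem nem_contDiff [FiniteDimensional ℝ Z] : ∀ (n : ℕ) {Z' : Type} [NormedAddCommGroup Z']
    [NormedSpace ℝ Z'] {V : ℝ → Z → Z'} (h : ∀ j, Sm 0 (Icc 0 T) univ j Z' V),
    ContDiff ℝ n (nem V (h 0).base.continuousOn) := by
  intro n
  induction n with
  | zero =>
    intro Z' _ _ V h
    have : Differentiable ℝ (nem V (h 0).base.continuousOn) := fun γ =>
      (nem_hasFDerivAt (h 1) γ).differentiableAt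
    exact contDiff_zero.2 this.continuous
  | succ n ih =>
    intro Z' _ _ V h
    have e : ((n + 1 : ℕ) : WithTop ℕ∞) = (n : WithTop ℕ∞) + 1 := by norm_cast
    rw [e, contDiff_succ_iff_hasFDerivAt]
    refine ⟨fun γ => appL (nem (fun t x => fderiv ℝ (V t) x) (h 1).2.2.base.continuousOn γ), ?_,
      fun γ => nem_hasFDerivAt (h 1) γ⟩
    exact appL.contDiff.comp (ih (fun j => (h (j + 1)).2.2))

section Volterra

variable [CompleteSpace Z]

/-- extension of a continuous function on `[0,T]` to the line -/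
def extI (hT : 0 < T) (γ : C(TI T, Z)) (s : ℝ) : Z := γ (projIcc 0 T hT.le s)

theorem continuous_extI (hT : 0 < T) (γ : C(TI T, Z)) : Continuous (extI hT γ) :=
  γ.continuous.comp continuous_projIcc

theorem norm_extI_le (hT : 0 < T) (γ : C(TI T, Z)) (s : ℝ) : ‖extI hT γ s‖ ≤ ‖γ‖ :=
  γ.norm_coe_le_norm _

theorem extI_of_mem (hT : 0 < T) (γ : C(TI T, Z)) (t : TI T) : extI hT γ t = γ t := by
  simp [extI]

/-- integration from `0` -/
def volt (hT : 0 < T) : C(TI T, Z) →L[ℝ] C(TI T, Z) :=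
  LinearMap.mkContinuous
    { toFun := fun γ => ⟨fun t => ∫ s in (0:ℝ)..t, extI hT γ s, by
        have h1 : Continuous fun t : ℝ => ∫ s in (0:ℝ)..t, extI hT γ s :=
          intervalIntegral.continuous_primitive
            (fun a b => (continuous_extI hT γ).intervalIntegrable a b) 0
        exact h1.comp continuous_subtype_val⟩
      map_add' := by
        intro γ η
        ext t
        show ∫ s in (0:ℝ)..t, extI hT (γ + η) s = (∫ s in (0:ℝ)..t, extI hT γ s) +
          ∫ s in (0:ℝ)..t, extI hT η s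
        rw [← intervalIntegral.integral_add ((continuous_extI hT γ).intervalIntegrable _ _)
          ((continuous_extI hT η).intervalIntegrable _ _)]
        rfl
      map_smul' := by
        intro c γ
        ext t
        show ∫ s in (0:ℝ)..t, extI hT (c • γ) s = c • ∫ s in (0:ℝ)..t, extI hT γ s
        rw [← intervalIntegral.integral_smul]
        rfl } T (by
      intro γ
      refine (ContinuousMap.norm_le _ (by positivity)).2 (fun t => ?_)
      show ‖∫ s in (0:ℝ)..t, extI hT γ s‖ ≤ T * ‖γ‖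
      have := intervalIntegral.norm_integral_le_of_norm_le_const (a := (0:ℝ)) (b := t)
        (f := extI hT γ) (C := ‖γ‖) (fun s _ => norm_extI_le hT γ s)
      refine this.trans ?_
      rw [sub_zero, abs_of_nonneg t.2.1, mul_comm]
      exact mul_le_mul_of_nonneg_right t.2.2 (norm_nonneg _))

theorem volt_apply (hT : 0 < T) (γ : C(TI T, Z)) (t : TI T) :
    volt hT γ t = ∫ s in (0:ℝ)..t, extI hT γ s := rfl

/-- multiplication by `exp (c t)` -/
def expM (c : ℝ) : C(TI T, Z) →L[ℝ] C(TI T, Z) :=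
  appL ⟨fun t => Real.exp (c * t) • ContinuousLinearMap.id ℝ Z, by fun_prop⟩

theorem expM_apply (c : ℝ) (γ : C(TI T, Z)) (t : TI T) :
    expM c γ t = Real.exp (c * t) • γ t := rfl

theorem expM_mul (c : ℝ) : (expM c : C(TI T, Z) →L[ℝ] C(TI T, Z)) * expM (-c) = 1 := by
  ext γ t
  show Real.exp (c * t) • (Real.exp (-c * t) • γ t) = γ t
  rw [smul_smul, ← Real.exp_add]
  simp

/-- Volterra operators have spectrum `{0}` -/
theorem isUnit_one_sub_volt (hT : 0 < T) (A : C(TI T, Z →L[ℝ] Z)) :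
    IsUnit ((1 : C(TI T, Z) →L[ℝ] C(TI T, Z)) - (volt hT).comp (appL A)) := by
  set c : ℝ := 2 * (‖A‖ + 1) with hc
  have hcpos : 0 < c := by positivity
  set B : C(TI T, Z) →L[ℝ] C(TI T, Z) := expM (-c) * ((volt hT).comp (appL A) * expM c) with hB
  have hBn : ‖B‖ ≤ 1 / 2 := by
    refine ContinuousLinearMap.opNorm_le_bound _ (by norm_num) (fun h => ?_)
    refine (ContinuousMap.norm_le _ (by positivity)).2 (fun t => ?_)
    show ‖Real.exp (-c * t) • ∫ s in (0:ℝ)..t, extI hT (appL A (expM c h)) s‖ ≤ 1 / 2 * ‖h‖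
    have h1 : ‖∫ s in (0:ℝ)..t, extI hT (appL A (expM c h)) s‖ ≤
        ∫ s in (0:ℝ)..t, ‖A‖ * ‖h‖ * Real.exp (c * s) := by
      refine intervalIntegral.norm_integral_le_of_norm_le t.2.1 ?_
        ((by fun_prop : Continuous fun s : ℝ => ‖A‖ * ‖h‖ * Real.exp (c * s)).intervalIntegrable _ _)
      refine Filter.Eventually.of_forall (fun s hs => ?_)
      have hs' : s ∈ Icc 0 T := ⟨hs.1.le, hs.2.trans t.2.2⟩
      have e : extI hT (appL A (expM c h)) s = A ⟨s, hs'⟩ (Real.exp (c * s) • h ⟨s, hs'⟩) := by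
        have := extI_of_mem hT (appL A (expM c h)) ⟨s, hs'⟩
        rw [this]
        rfl
      rw [e]
      refine ((A _).le_opNorm _).trans ?_
      rw [norm_smul, Real.norm_of_nonneg (Real.exp_pos _).le]
      have a1 := A.norm_coe_le_norm ⟨s, hs'⟩
      have a2 := h.norm_coe_le_norm ⟨s, hs'⟩
      calc ‖A ⟨s, hs'⟩‖ * (Real.exp (c * s) * ‖h ⟨s, hs'⟩‖)
          ≤ ‖A‖ * (Real.exp (c * s) * ‖h‖) := by gcongr
        _ = _ := by ring
    have h2 : ∫ s in (0:ℝ)..t, ‖A‖ * ‖h‖ * Real.exp (c * s) =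
        ‖A‖ * ‖h‖ * ((Real.exp (c * t) - 1) / c) := by
      rw [intervalIntegral.integral_const_mul]
      congr 1
      have : ∀ s : ℝ, HasDerivAt (fun s => Real.exp (c * s) / c) (Real.exp (c * s)) s := by
        intro s
        have h3 : HasDerivAt (fun s => Real.exp (c * s)) (Real.exp (c * s) * (c * 1)) s :=
          ((hasDerivAt_id s).const_mul c).exp
        have h4 := h3.div_const c
        have h5 : Real.exp (c * s) * (c * 1) / c = Real.exp (c * s) := by
          rw [mul_one, mul_div_cancel_right₀ _ hcpos.ne']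
        rw [h5] at h4
        exact h4
      rw [intervalIntegral.integral_eq_sub_of_hasDerivAt (fun s _ => this s)
        ((by fun_prop : Continuous fun s : ℝ => Real.exp (c * s)).intervalIntegrable _ _)]
      simp
      ring
    rw [norm_smul, Real.norm_of_nonneg (Real.exp_pos _).le]
    calc Real.exp (-c * t) * ‖∫ s in (0:ℝ)..t, extI hT (appL A (expM c h)) s‖
        ≤ Real.exp (-c * t) * (‖A‖ * ‖h‖ * ((Real.exp (c * t) - 1) / c)) := by
          rw [← h2]; gcongr
      _ ≤ Real.exp (-c * t) * (‖A‖ * ‖h‖ * (Real.exp (c * t) / c)) := by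
          gcongr
          linarith
      _ = (Real.exp (-c * t) * Real.exp (c * t)) * (‖A‖ / c * ‖h‖) := by ring
      _ = ‖A‖ / c * ‖h‖ := by
          rw [← Real.exp_add]; simp
      _ ≤ 1 / 2 * ‖h‖ := by
          apply mul_le_mul_of_nonneg_right _ (norm_nonneg h)
          rw [div_le_iff₀ hcpos, hc]
          have := norm_nonneg A
          linarith
  have hBu : IsUnit (1 - B) := isUnit_one_sub_of_norm_lt_one (by linarith)
  have e1 : (expM c : C(TI T, Z) →L[ℝ] C(TI T, Z)) * expM (-c) = 1 := expM_mul c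
  have e2 : (expM (-c) : C(TI T, Z) →L[ℝ] C(TI T, Z)) * expM c = 1 := by
    have := expM_mul (T := T) (Z := Z) (-c)
    rwa [neg_neg] at this
  have hu1 : IsUnit (expM c : C(TI T, Z) →L[ℝ] C(TI T, Z)) :=
    ⟨⟨expM c, expM (-c), e1, e2⟩, rfl⟩
  have hu2 : IsUnit (expM (-c) : C(TI T, Z) →L[ℝ] C(TI T, Z)) :=
    ⟨⟨expM (-c), expM c, e2, e1⟩, rfl⟩
  have key : (1 : C(TI T, Z) →L[ℝ] C(TI T, Z)) - (volt hT).comp (appL A) =
      expM c * (1 - B) * expM (-c) := by
    have : expM c * B * expM (-c) = (volt hT).comp (appL A) := by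
      rw [hB, ← mul_assoc (expM c), e1, one_mul, mul_assoc, e1, mul_one]
    rw [mul_sub, sub_mul, this, mul_one, e1]
  rw [key]
  exact (hu1.mul hBu).mul hu2

end Volterra

end Pool.Agent.RF.H13
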