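import Pool.Agent.Helper36_RF.GeoSt

/-!
# Joint smoothness (helper13, MP_a23110_gt)

`Sm k I U j Z w`: `w` and its first `j` spatial derivatives exist and are jointly `C^k`.
-/

noncomputable section

open scoped ContDiff Topology
set_option maxSynthPendingDepth 3
set_option linter.unusedSectionVars false
open Set

namespace Pool.Agent.RF.H13

variable {X : Type} [NormedAddCommGroup X] [NormedSpace ℝ X]

/-- `w` and its first `j` spatial derivatives are jointly `C^k` on `I × U`. -/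
def Sm (k : WithTop ℕ∞) (I : Set ℝ) (U : Set X) :
    ℕ → ∀ (Z : Type) [NormedAddCommGroup Z] [NormedSpace ℝ Z], (ℝ → X → Z) → Prop
  | 0, _, _, _, w => ContDiffOn ℝ k (fun p : ℝ × X => w p.1 p.2) (I ×ˢ U)
  | j + 1, Z, _, _, w => ContDiffOn ℝ k (fun p : ℝ × X => w p.1 p.2) (I ×ˢ U) ∧
      (∀ t ∈ I, DifferentiableOn ℝ (w t) U) ∧
      Sm k I U j (X →L[ℝ] Z) (fun t x => fderiv ℝ (w t) x)

variable {k : WithTop ℕ∞} {I : Set ℝ} {U : Set X} {j : ℕ}
variable {Z : Type} [NormedAddCommGroup Z] [NormedSpace ℝ Z]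

theorem Sm.base {w : ℝ → X → Z} (h : Sm k I U j Z w) :
    ContDiffOn ℝ k (fun p : ℝ × X => w p.1 p.2) (I ×ˢ U) := by
  cases j with
  | zero => exact h
  | succ j => exact h.1

theorem Sm.pred : ∀ {j : ℕ} {Z : Type} [NormedAddCommGroup Z] [NormedSpace ℝ Z] {w : ℝ → X → Z},
    Sm k I U (j + 1) Z w → Sm k I U j Z w := by
  intro j
  induction j with
  | zero => intro Z _ _ w h; exact h.1
  | succ j ih => intro Z _ _ w h; exact ⟨h.1, h.2.1, ih h.2.2⟩

theorem Sm.congr (hU : IsOpen U) : ∀ {j : ℕ} {Z : Type} [NormedAddCommGroup Z] [NormedSpace ℝ Z]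
    {w w' : ℝ → X → Z}, Sm k I U j Z w → (∀ t ∈ I, ∀ x ∈ U, w' t x = w t x) →
    Sm k I U j Z w' := by
  intro j
  induction j with
  | zero =>
    intro Z _ _ w w' h he
    exact ContDiffOn.congr h (fun p hp => he p.1 hp.1 p.2 hp.2)
  | succ j ih =>
    intro Z _ _ w w' h he
    refine ⟨h.1.congr (fun p hp => he p.1 hp.1 p.2 hp.2), fun t ht => (h.2.1 t ht).congr
      (fun x hx => he t ht x hx), ih h.2.2 ?_⟩
    intro t ht x hx
    apply Filter.EventuallyEq.fderiv_eq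
    filter_upwards [hU.mem_nhds hx] with y hy
    exact he t ht y hy

theorem Sm.clm (hU : IsOpen U) : ∀ {j : ℕ} {Z Z' : Type} [NormedAddCommGroup Z] [NormedSpace ℝ Z]
    [NormedAddCommGroup Z'] [NormedSpace ℝ Z'] (L : Z →L[ℝ] Z')
    {w : ℝ → X → Z}, Sm k I U j Z w → Sm k I U j Z' (fun t x => L (w t x)) := by
  intro j
  induction j with
  | zero =>
    intro Z Z' _ _ _ _ L w h
    exact L.contDiff.comp_contDiffOn h
  | succ j ih =>
    intro Z Z' _ _ _ _ L w h
    refine ⟨L.contDiff.comp_contDiffOn h.1, fun t ht => L.differentiable.comp_differentiableOn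
      (h.2.1 t ht), ?_⟩
    refine (ih (ContinuousLinearMap.compL ℝ X Z Z' L) h.2.2).congr hU ?_
    intro t ht x hx
    have hd : DifferentiableAt ℝ (w t) x := (h.2.1 t ht).differentiableAt (hU.mem_nhds hx)
    exact (L.hasFDerivAt.comp x hd.hasFDerivAt).fderiv

theorem Sm.prod (hU : IsOpen U) : ∀ {j : ℕ} {Z Z' : Type} [NormedAddCommGroup Z] [NormedSpace ℝ Z]
    [NormedAddCommGroup Z'] [NormedSpace ℝ Z'] {w : ℝ → X → Z} {w' : ℝ → X → Z'},
    Sm k I U j Z w → Sm k I U j Z' w' → Sm k I U j (Z × Z') (fun t x => (w t x, w' t x)) := by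
  intro j
  induction j with
  | zero =>
    intro Z Z' _ _ _ _ w w' h h'
    exact ContDiffOn.prodMk h h'
  | succ j ih =>
    intro Z Z' _ _ _ _ w w' h h'
    refine ⟨h.1.prodMk h'.1, fun t ht => (h.2.1 t ht).prodMk (h'.2.1 t ht), ?_⟩
    refine ((ih h.2.2 h'.2.2).clm hU
      ((ContinuousLinearMap.prodₗᵢ ℝ (𝕜 := ℝ) (E := X) (F := Z)
        (G := Z')).toContinuousLinearEquiv : (X →L[ℝ] Z) × (X →L[ℝ] Z') →L[ℝ] (X →L[ℝ] Z × Z'))).congr hU ?_
    intro t ht x hx
    have hd : DifferentiableAt ℝ (w t) x := (h.2.1 t ht).differentiableAt (hU.mem_nhds hx)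
    have hd' : DifferentiableAt ℝ (w' t) x := (h'.2.1 t ht).differentiableAt (hU.mem_nhds hx)
    exact (hd.hasFDerivAt.prodMk hd'.hasFDerivAt).fderiv

/-- composition with a jointly smooth function -/
theorem Sm.comp (hI : UniqueDiffOn ℝ I) (hU : IsOpen U) (hk : k ≤ ∞) :
    ∀ {j : ℕ} {Z Z' : Type} [NormedAddCommGroup Z] [NormedSpace ℝ Z]
    [NormedAddCommGroup Z'] [NormedSpace ℝ Z'] {w : ℝ → X → Z} {Ψ : ℝ × X × Z → Z'}
    {O : Set (X × Z)}, IsOpen O → ContDiffOn ℝ ∞ Ψ (I ×ˢ O) → Sm k I U j Z w →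
    (∀ t ∈ I, ∀ x ∈ U, (x, w t x) ∈ O) → Sm k I U j Z' (fun t x => Ψ (t, x, w t x)) := by
  have main : ∀ {Z Z' : Type} [NormedAddCommGroup Z] [NormedSpace ℝ Z]
    [NormedAddCommGroup Z'] [NormedSpace ℝ Z'] {w : ℝ → X → Z} {Ψ : ℝ × X × Z → Z'}
    {O : Set (X × Z)}, IsOpen O → ContDiffOn ℝ ∞ Ψ (I ×ˢ O) →
      ContDiffOn ℝ k (fun p : ℝ × X => w p.1 p.2) (I ×ˢ U) →
      (∀ t ∈ I, ∀ x ∈ U, (x, w t x) ∈ O) →
      ContDiffOn ℝ k (fun p : ℝ × X => Ψ (p.1, p.2, w p.1 p.2)) (I ×ˢ U) := by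
    intro Z Z' _ _ _ _ w Ψ O hO hΨ hw hm
    have h1 : ContDiffOn ℝ k (fun p : ℝ × X => (p.1, p.2, w p.1 p.2)) (I ×ˢ U) :=
      contDiff_fst.contDiffOn.prodMk (contDiff_snd.contDiffOn.prodMk hw)
    exact (hΨ.of_le hk).comp h1 (fun p hp => ⟨hp.1, hm p.1 hp.1 p.2 hp.2⟩)
  intro j
  induction j with
  | zero =>
    intro Z Z' _ _ _ _ w Ψ O hO hΨ hw hm
    exact main hO hΨ hw hm
  | succ j ih =>
    intro Z Z' _ _ _ _ w Ψ O hO hΨ hw hm
    have hslice : ∀ t ∈ I, ∀ q ∈ O, HasFDerivAt (fun q : X × Z => Ψ (t, q))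
        ((fderivWithin ℝ Ψ (I ×ˢ O) (t, q)).comp (ContinuousLinearMap.inr ℝ ℝ (X × Z))) q := by
      intro t ht q hq
      have h1 : HasFDerivWithinAt Ψ (fderivWithin ℝ Ψ (I ×ˢ O) (t, q)) (I ×ˢ O) (t, q) :=
        (hΨ.differentiableOn (by simp) (t, q) ⟨ht, hq⟩).hasFDerivWithinAt
      have h2 : HasFDerivWithinAt (fun q : X × Z => (t, q)) (ContinuousLinearMap.inr ℝ ℝ (X × Z))
          O q := (hasFDerivAt_prodMk_right t q).hasFDerivWithinAt
      have h3 := h1.comp q h2 (fun q' hq' => (⟨ht, hq'⟩ : (t, q') ∈ I ×ˢ O))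
      exact h3.hasFDerivAt (hO.mem_nhds hq)
    have hder : ∀ t ∈ I, ∀ x ∈ U, HasFDerivAt (fun x => Ψ (t, x, w t x))
        (((fderivWithin ℝ Ψ (I ×ˢ O) (t, x, w t x)).comp
          (ContinuousLinearMap.inr ℝ ℝ (X × Z))).comp
          ((ContinuousLinearMap.id ℝ X).prod (fderiv ℝ (w t) x))) x := by
      intro t ht x hx
      have hd : DifferentiableAt ℝ (w t) x := (hw.2.1 t ht).differentiableAt (hU.mem_nhds hx)
      have h1 : HasFDerivAt (fun x => (x, w t x))
          ((ContinuousLinearMap.id ℝ X).prod (fderiv ℝ (w t) x)) x :=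
        (hasFDerivAt_id x).prodMk hd.hasFDerivAt
      exact (hslice t ht (x, w t x) (hm t ht x hx)).comp x h1
    refine ⟨main hO hΨ hw.1 hm, fun t ht x hx => (hder t ht x hx).differentiableAt.differentiableWithinAt, ?_⟩
    let Ψ' : ℝ × X × (Z × (X →L[ℝ] Z)) → (X →L[ℝ] Z') := fun p =>
      ((fderivWithin ℝ Ψ (I ×ˢ O) (p.1, p.2.1, p.2.2.1)).comp
          (ContinuousLinearMap.inr ℝ ℝ (X × Z))).comp
          ((ContinuousLinearMap.id ℝ X).prod p.2.2.2)
    let O' : Set (X × (Z × (X →L[ℝ] Z))) := (fun p => (p.1, p.2.1)) ⁻¹' O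
    have hO' : IsOpen O' := hO.preimage (by fun_prop)
    have hΨ' : ContDiffOn ℝ ∞ Ψ' (I ×ˢ O') := by
      have e1 : ContDiffOn ℝ ∞ (fderivWithin ℝ Ψ (I ×ˢ O)) (I ×ˢ O) :=
        hΨ.fderivWithin (hI.prod hO.uniqueDiffOn) (by simp)
      have e2 : ContDiffOn ℝ ∞ (fun p : ℝ × X × (Z × (X →L[ℝ] Z)) =>
          fderivWithin ℝ Ψ (I ×ˢ O) (p.1, p.2.1, p.2.2.1)) (I ×ˢ O') := by
        refine e1.comp (ContDiff.contDiffOn (by fun_prop)) ?_
        intro p hp
        exact ⟨hp.1, hp.2⟩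
      have e3 : ContDiffOn ℝ ∞ (fun p : ℝ × X × (Z × (X →L[ℝ] Z)) =>
          (ContinuousLinearMap.id ℝ X).prod p.2.2.2) (I ×ˢ O') := by
        have : (fun p : ℝ × X × (Z × (X →L[ℝ] Z)) =>
          (ContinuousLinearMap.id ℝ X).prod p.2.2.2) = fun p =>
            (ContinuousLinearMap.prodₗᵢ ℝ (𝕜 := ℝ) (E := X) (F := X)
        (G := Z)) ((ContinuousLinearMap.id ℝ X), p.2.2.2) := rfl
        rw [this]
        apply ContDiff.contDiffOn
        apply (LinearIsometryEquiv.contDiff _).comp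
        fun_prop
      exact (e2.clm_comp contDiffOn_const).clm_comp e3
    have hw' := hw.pred.prod hU hw.2.2
    have key := ih (Ψ := Ψ') hO' hΨ' hw' (fun t ht x hx => hm t ht x hx)
    exact key.congr hU (fun t ht x hx => (hder t ht x hx).fderiv)

section Deriv

variable {T : ℝ} {w g : ℝ → X → Z}

/-- total derivative from the two partial derivatives -/
theorem hasFDeriv_total (hU : IsOpen U)
    (hd : ∀ t ∈ I, DifferentiableOn ℝ (w t) U)
    (hc : ContinuousOn (fun p : ℝ × X => fderiv ℝ (w p.1) p.2) (I ×ˢ U))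
    (ht : ∀ t ∈ I, ∀ x ∈ U, HasDerivWithinAt (fun s => w s x) (g t x) I t)
    {t : ℝ} (htI : t ∈ I) {x : X} (hx : x ∈ U) :
    HasFDerivWithinAt (fun p : ℝ × X => w p.1 p.2)
      ((ContinuousLinearMap.fst ℝ ℝ X).smulRight (g t x) +
        (fderiv ℝ (w t) x).comp (ContinuousLinearMap.snd ℝ ℝ X)) (I ×ˢ U) (t, x) := by
  rw [hasFDerivWithinAt_iff_isLittleO, Asymptotics.isLittleO_iff]
  intro ε hε
  have hc1 := (hc (t, x) ⟨htI, hx⟩)
  rw [Metric.continuousWithinAt_iff] at hc1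
  obtain ⟨δ, hδ, h1⟩ := hc1 (ε / 2) (half_pos hε)
  obtain ⟨r, hr, hrU⟩ := Metric.isOpen_iff.1 hU x hx
  have h2 := ht t htI x hx
  rw [hasDerivWithinAt_iff_isLittleO, Asymptotics.isLittleO_iff] at h2
  have h3 := h2 (half_pos hε)
  rw [nhdsWithin_prod_eq]
  have h4 : ∀ᶠ p : ℝ × X in 𝓝[I] t ×ˢ 𝓝[U] x, dist p.2 x < min δ r := by
    have : ∀ᶠ y : X in 𝓝[U] x, dist y x < min δ r :=
      nhdsWithin_le_nhds (Metric.ball_mem_nhds x (lt_min hδ hr))
    exact this.prod_inr _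
  have h5 : ∀ᶠ p : ℝ × X in 𝓝[I] t ×ˢ 𝓝[U] x, dist p.1 t < δ ∧ p.1 ∈ I := by
    have : ∀ᶠ s : ℝ in 𝓝[I] t, dist s t < δ ∧ s ∈ I :=
      Filter.inter_mem (nhdsWithin_le_nhds (Metric.ball_mem_nhds t hδ)) self_mem_nhdsWithin
    exact this.prod_inl _
  filter_upwards [h3.prod_inl _, h4, h5] with p q1 q2 q3
  obtain ⟨s, y⟩ := p
  simp only at q1 q2 q3
  have q2a : dist y x < δ := lt_of_lt_of_le q2 (min_le_left _ _)
  have q2b : dist y x < r := lt_of_lt_of_le q2 (min_le_right _ _)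
  -- mean value in the spatial direction
  have hmv : ‖w s y - w s x - fderiv ℝ (w t) x (y - x)‖ ≤ ε / 2 * ‖y - x‖ := by
    have := (convex_ball x (min δ r)).norm_image_sub_le_of_norm_hasFDerivWithin_le'
      (f := w s) (f' := fun z => fderiv ℝ (w s) z) (φ := fderiv ℝ (w t) x) (C := ε / 2)
      (x := x) (y := y) ?_ ?_ (Metric.mem_ball_self (lt_min hδ hr)) q2
    · exact this
    · intro z hz
      have hzU : z ∈ U := hrU (Metric.ball_subset_ball (min_le_right _ _) hz)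
      exact ((hd s q3.2).differentiableAt (hU.mem_nhds hzU)).hasFDerivAt.hasFDerivWithinAt
    · intro z hz
      have hzU : z ∈ U := hrU (Metric.ball_subset_ball (min_le_right _ _) hz)
      have hz1 : dist z x < δ := Metric.ball_subset_ball (min_le_left _ _) hz
      have := h1 (x := (s, z)) ⟨q3.2, hzU⟩ (by
        rw [Prod.dist_eq]; exact max_lt q3.1 hz1)
      rw [dist_eq_norm] at this
      exact this.le
  have e : w s y - w t x - ((ContinuousLinearMap.fst ℝ ℝ X).smulRight (g t x) +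
        (fderiv ℝ (w t) x).comp (ContinuousLinearMap.snd ℝ ℝ X)) ((s, y) - (t, x)) =
      (w s y - w s x - fderiv ℝ (w t) x (y - x)) + (w s x - w t x - (s - t) • g t x) := by
    simp
    abel
  rw [e]
  refine (norm_add_le _ _).trans ?_
  have n1 : ‖y - x‖ ≤ ‖(s, y) - (t, x)‖ := by
    rw [Prod.mk_sub_mk]; exact norm_snd_le (s - t, y - x)
  have n2 : ‖s - t‖ ≤ ‖(s, y) - (t, x)‖ := by
    rw [Prod.mk_sub_mk]; exact norm_fst_le (s - t, y - x)
  calc _ ≤ ε / 2 * ‖y - x‖ + ε / 2 * ‖s - t‖ := add_le_add hmv q1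
    _ ≤ ε / 2 * ‖(s, y) - (t, x)‖ + ε / 2 * ‖(s, y) - (t, x)‖ := by gcongr
    _ = ε * ‖(s, y) - (t, x)‖ := by ring

/-- time derivative and space derivative commute -/
theorem hasDeriv_comm (hIc : Convex ℝ I) (hU : IsOpen U)
    (hd : ∀ t ∈ I, DifferentiableOn ℝ (w t) U)
    (hg : ∀ t ∈ I, DifferentiableOn ℝ (g t) U)
    (hc : ContinuousOn (fun p : ℝ × X => fderiv ℝ (g p.1) p.2) (I ×ˢ U))
    (ht : ∀ t ∈ I, ∀ x ∈ U, HasDerivWithinAt (fun s => w s x) (g t x) I t)
    {t : ℝ} (htI : t ∈ I) {x : X} (hx : x ∈ U) :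
    HasDerivWithinAt (fun s => fderiv ℝ (w s) x) (fderiv ℝ (g t) x) I t := by
  rw [hasDerivWithinAt_iff_isLittleO, Asymptotics.isLittleO_iff]
  intro ε hε
  have hc1 := (hc (t, x) ⟨htI, hx⟩)
  rw [Metric.continuousWithinAt_iff] at hc1
  obtain ⟨δ, hδ, h1⟩ := hc1 (ε / 2) (half_pos hε)
  obtain ⟨r, hr, hrU⟩ := Metric.isOpen_iff.1 hU x hx
  have h5 : ∀ᶠ s : ℝ in 𝓝[I] t, dist s t < δ ∧ s ∈ I :=
      Filter.inter_mem (nhdsWithin_le_nhds (Metric.ball_mem_nhds t hδ)) self_mem_nhdsWithin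
  filter_upwards [h5] with s hs
  have dW : ∀ s ∈ I, ∀ y ∈ U, HasFDerivAt (w s) (fderiv ℝ (w s) y) y := fun s hs y hy =>
    ((hd s hs).differentiableAt (hU.mem_nhds hy)).hasFDerivAt
  have dG : ∀ s ∈ I, ∀ y ∈ U, HasFDerivAt (g s) (fderiv ℝ (g s) y) y := fun s hs y hy =>
    ((hg s hs).differentiableAt (hU.mem_nhds hy)).hasFDerivAt
  have hF : HasFDerivAt (fun y => w s y - w t y - (s - t) • g t y)
      (fderiv ℝ (w s) x - fderiv ℝ (w t) x - (s - t) • fderiv ℝ (g t) x) x :=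
    ((dW s hs.2 x hx).sub (dW t htI x hx)).sub ((dG t htI x hx).const_smul (s - t))
  refine hF.le_of_lip' (by positivity) ?_
  filter_upwards [Metric.ball_mem_nhds x (lt_min hδ hr)] with y hy
  have hyU : y ∈ U := hrU (Metric.ball_subset_ball (min_le_right _ _) hy)
  have hbd : ∀ s' ∈ I ∩ Metric.ball t δ, ‖(g s' y - g t y) - (g s' x - g t x)‖ ≤ ε * ‖y - x‖ := by
    intro s' hs'
    have := (convex_ball x (min δ r)).norm_image_sub_le_of_norm_hasFDerivWithin_le
      (f := fun z => g s' z - g t z) (f' := fun z => fderiv ℝ (g s') z - fderiv ℝ (g t) z)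
      (C := ε) (x := x) (y := y) ?_ ?_ (Metric.mem_ball_self (lt_min hδ hr)) hy
    · exact this
    · intro z hz
      have hzU : z ∈ U := hrU (Metric.ball_subset_ball (min_le_right _ _) hz)
      exact ((dG s' hs'.1 z hzU).sub (dG t htI z hzU)).hasFDerivWithinAt
    · intro z hz
      have hzU : z ∈ U := hrU (Metric.ball_subset_ball (min_le_right _ _) hz)
      have hz1 : dist z x < δ := Metric.ball_subset_ball (min_le_left _ _) hz
      have a1 := h1 (x := (s', z)) ⟨hs'.1, hzU⟩ (by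
        rw [Prod.dist_eq]; exact max_lt hs'.2 hz1)
      have a2 := h1 (x := (t, z)) ⟨htI, hzU⟩ (by
        rw [Prod.dist_eq]; exact max_lt (by simpa using hδ) hz1)
      simp only at a1 a2
      rw [← dist_eq_norm]
      calc _ ≤ _ := dist_triangle_right _ _ (fderiv ℝ (g t) x)
        _ ≤ ε / 2 + ε / 2 := add_le_add a1.le a2.le
        _ = ε := by ring
  have hconv : Convex ℝ (I ∩ Metric.ball t δ) := hIc.inter (convex_ball t δ)
  have hk := hconv.norm_image_sub_le_of_norm_hasDerivWithin_le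
    (f := fun s' => (w s' y - w s' x) - (s' - t) • (g t y - g t x))
    (f' := fun s' => (g s' y - g s' x) - (g t y - g t x)) (C := ε * ‖y - x‖)
    (x := t) (y := s) ?_ ?_ ⟨htI, Metric.mem_ball_self hδ⟩ ⟨hs.2, hs.1⟩
  · have e : (w s y - w t y - (s - t) • g t y) - (w s x - w t x - (s - t) • g t x) =
      ((w s y - w s x) - (s - t) • (g t y - g t x)) -
        ((w t y - w t x) - (t - t) • (g t y - g t x)) := by
      simp only [sub_self, zero_smul, sub_zero, smul_sub]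
      abel
    rw [e]
    calc _ ≤ _ := hk
      _ = _ := by ring
  · intro s' hs'
    have a1 := (ht s' hs'.1 y hyU).sub (ht s' hs'.1 x hx)
    have a2 : HasDerivWithinAt (fun s' => (s' - t) • (g t y - g t x)) (g t y - g t x) I s' := by
      have := ((hasDerivAt_id s').sub_const t).smul_const (g t y - g t x)
      simpa using this.hasDerivWithinAt
    exact (a1.sub a2).mono inter_subset_left
  · intro s' hs'
    have := hbd s' hs'
    have e : g s' y - g s' x - (g t y - g t x) = g s' y - g t y - (g s' x - g t x) := by abel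
    rw [e]
    exact this

end Deriv

/-- one more joint derivative -/
theorem Sm.step (hI : UniqueDiffOn ℝ I) (hIc : Convex ℝ I) (hU : IsOpen U) {k : ℕ} :
    ∀ (j : ℕ) {Z : Type} [NormedAddCommGroup Z] [NormedSpace ℝ Z] {w g : ℝ → X → Z},
    (∀ j, Sm k I U j Z w) → (∀ j, Sm k I U j Z g) →
    (∀ t ∈ I, ∀ x ∈ U, HasDerivWithinAt (fun s => w s x) (g t x) I t) →
    Sm (k + 1) I U j Z w := by
  have main : ∀ {Z : Type} [NormedAddCommGroup Z] [NormedSpace ℝ Z] {w g : ℝ → X → Z},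
    (∀ j, Sm k I U j Z w) → (∀ j, Sm k I U j Z g) →
    (∀ t ∈ I, ∀ x ∈ U, HasDerivWithinAt (fun s => w s x) (g t x) I t) →
    ContDiffOn ℝ (k + 1) (fun p : ℝ × X => w p.1 p.2) (I ×ˢ U) := by
    intro Z _ _ w g hw hg hder
    rw [contDiffOn_succ_iff_hasFDerivWithinAt_of_uniqueDiffOn (hI.prod hU.uniqueDiffOn)]
    refine ⟨fun h => by simp at h, fun p => (ContinuousLinearMap.fst ℝ ℝ X).smulRight (g p.1 p.2) +
        (fderiv ℝ (w p.1) p.2).comp (ContinuousLinearMap.snd ℝ ℝ X), ?_, ?_⟩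
    · have h1 := (hg 0).base
      have h2 := (hw 1).2.2.base
      exact (contDiffOn_const.smulRight h1).add (h2.clm_comp contDiffOn_const)
    · intro p hp
      exact hasFDeriv_total hU (hw 1).2.1 (hw 1).2.2.base.continuousOn hder hp.1 hp.2
  intro j
  induction j with
  | zero => intro Z _ _ w g hw hg hder; exact main hw hg hder
  | succ j ih =>
    intro Z _ _ w g hw hg hder
    refine ⟨main hw hg hder, (hw 1).2.1, ih (fun j => (hw (j + 1)).2.2) (fun j => (hg (j + 1)).2.2) ?_⟩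
    intro t ht x hx
    exact hasDeriv_comm hIc hU (hw 1).2.1 (hg 1).2.1 (hg 1).2.2.base.continuousOn hder ht hx

/-- from jointly continuous spatial derivatives -/
theorem Sm.of_iterated (hU : IsOpen U) : ∀ (j : ℕ) {Z : Type} [NormedAddCommGroup Z]
    [NormedSpace ℝ Z] {w : ℝ → X → Z}, (∀ t ∈ I, ContDiffOn ℝ ∞ (w t) U) →
    (∀ k : ℕ, ContinuousOn (fun p : ℝ × X => iteratedFDeriv ℝ k (w p.1) p.2) (I ×ˢ U)) →
    Sm 0 I U j Z w := by
  have main : ∀ {Z : Type} [NormedAddCommGroup Z]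
    [NormedSpace ℝ Z] {w : ℝ → X → Z},
    (∀ k : ℕ, ContinuousOn (fun p : ℝ × X => iteratedFDeriv ℝ k (w p.1) p.2) (I ×ˢ U)) →
    ContinuousOn (fun p : ℝ × X => w p.1 p.2) (I ×ˢ U) := by
    intro Z _ _ w h
    have h0 := h 0
    have := (ContinuousLinearEquiv.continuous
      (continuousMultilinearCurryFin0 ℝ X Z).toContinuousLinearEquiv).comp_continuousOn h0
    refine this.congr ?_
    intro p hp
    simp [iteratedFDeriv_zero_eq_comp]
  intro j
  induction j with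
  | zero => intro Z _ _ w hd h; exact contDiffOn_zero.2 (main h)
  | succ j ih =>
    intro Z _ _ w hd h
    refine ⟨contDiffOn_zero.2 (main h), fun t ht => (hd t ht).differentiableOn (by simp), ih ?_ ?_⟩
    · intro t ht
      exact ((contDiffOn_infty_iff_fderiv_of_isOpen hU).1 (hd t ht)).2
    · intro k
      have hk := h (k + 1)
      have := (ContinuousLinearEquiv.continuous
        (continuousMultilinearCurryRightEquiv' ℝ k X Z).toContinuousLinearEquiv).comp_continuousOn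
          hk
      refine this.congr ?_
      intro p hp
      simp only [Function.comp, LinearIsometryEquiv.coe_toContinuousLinearEquiv]
      rw [iteratedFDeriv_succ_eq_comp_right]
      simp

/-- **Joint smoothness.** -/
theorem jointSmooth : JointSmoothStatement := by
  intro X Y _ _ _ _ _ _ T U u O Φ hT hU hO hΦ hsm hcont hmem hder
  have hI : UniqueDiffOn ℝ (Icc 0 T) := uniqueDiffOn_Icc hT
  have key : ∀ k : ℕ, ∀ j : ℕ, Sm k (Icc 0 T) U j Y u := by
    intro k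
    induction k with
    | zero => intro j; exact Sm.of_iterated hU j hsm hcont
    | succ k ih =>
      intro j
      have e : ((k + 1 : ℕ) : WithTop ℕ∞) = (k : WithTop ℕ∞) + 1 := by norm_cast
      rw [e]
      refine Sm.step hI (convex_Icc 0 T) hU j ih (g := fun t x =>
        Φ (t, x, u t x, fderiv ℝ (u t) x, fderiv ℝ (fderiv ℝ (u t)) x)) ?_ hder
      intro j
      have h1 := ih (j + 2)
      have h2 : Sm k (Icc 0 T) U j (Y × (X →L[ℝ] Y) × (X →L[ℝ] X →L[ℝ] Y))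
          (fun t x => (u t x, fderiv ℝ (u t) x, fderiv ℝ (fderiv ℝ (u t)) x)) :=
        h1.pred.pred.prod hU (h1.2.2.pred.prod hU h1.2.2.2.2)
      exact h2.comp hI hU (by exact_mod_cast le_top) hO hΦ hmem
  rw [contDiffOn_infty]
  intro k
  exact (key k 0).base

end Pool.Agent.RF.H13
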