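import Pool.Agent.Helper36_RF.Ex

/-!
# The pointwise positivity condition in the cut-off region (helper13, MP_a23110_gt, module FAM)
-/

noncomputable section

open scoped ContDiff Topology
set_option maxSynthPendingDepth 3
set_option linter.unusedSectionVars false
set_option linter.unusedVariables false
open Set

namespace Pool.Agent.RF.H13

/-- the constant `ν` -/
def vν (c : ℝ) : ℝ := -(541 / 2) + (312 / 5) * c
def vK (c b : ℝ) : ℝ := 3 / 2 * (26 - c) * b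
def vk (c b σ : ℝ) : ℝ := vK c b - 1 - σ
def vK1 (c b ψ σ : ℝ) : ℝ := 1 + vk c b σ * ψ
def vK0 (c b ψ e σ : ℝ) : ℝ := vK1 c b ψ σ - vk c b σ * e
def vB (c τ ψ : ℝ) : ℝ := 1 + (12 - vν c * τ) * ψ
def vP (c b τ ψ σ : ℝ) : ℝ := 1 - τ * vK1 c b ψ σ
def vM (c b w τ ψ σ : ℝ) : ℝ := vB c τ ψ * vP c b τ ψ σ * w
def vN (c b w τ ψ σ : ℝ) : ℝ := w - τ * vP c b τ ψ σ * vB c τ ψ ^ 2 * w ^ 2
def vL (c b w τ ψ e σ : ℝ) : ℝ :=
  (vB c τ ψ * (vP c b τ ψ σ - τ * vK0 c b ψ e σ)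
    + 2 * vP c b τ ψ σ * (-(vν c * τ * ψ) - (12 - vν c * τ) * e)) * w
    + τ * vP c b τ ψ σ * vB c τ ψ ^ 2 * w ^ 2
def vU (c b ψ e σ : ℝ) : ℝ := 2 * vK0 c b ψ e σ - 1 / 2 * vK1 c b ψ σ
def vL0 (b ψ e : ℝ) : ℝ := (1 + 12 * ψ - 24 * e) * b
def vM0 (b ψ : ℝ) : ℝ := (1 + 12 * ψ) * b
def vL1 (c b w τ ψ e σ α : ℝ) : ℝ :=
  (α * vL0 b ψ e + (-(vν c * ψ) - vB c τ ψ * (vK0 c b ψ e σ + vK1 c b ψ σ)
    + 24 * vK1 c b ψ σ * e + 2 * vν c * vP c b τ ψ σ * (e - ψ)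
    + vP c b τ ψ σ * vB c τ ψ ^ 2 * w)) * w
def vM1 (c b w τ ψ σ α : ℝ) : ℝ :=
  (α * vM0 b ψ - vν c * ψ - vB c τ ψ * vK1 c b ψ σ) * w
def vN1 (c b w τ ψ σ α : ℝ) : ℝ := α * b * w - vP c b τ ψ σ * vB c τ ψ ^ 2 * w ^ 2
def vV1 (c b w τ ψ e σ α : ℝ) : ℝ := 2 * vL1 c b w τ ψ e σ α - c * vN1 c b w τ ψ σ α
def vE (c b w τ ψ e σ α : ℝ) : ℝ :=
  vU c b ψ e σ * vV1 c b w τ ψ e σ α
    - 2 * (vK0 c b ψ e σ + vL0 b ψ e - vM0 b ψ) *
      (vL1 c b w τ ψ e σ α - vM1 c b w τ ψ σ α)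
    - τ * (vL1 c b w τ ψ e σ α - vM1 c b w τ ψ σ α) ^ 2

theorem vE_base (c : ℝ) : vE c 1 1 0 1 0 0 13 = (39 - 3 / 2 * c) / 2 := by
  simp only [vE, vU, vV1, vL1, vM1, vN1, vL0, vM0, vK0, vK1, vk, vK, vB, vP, vν]
  ring

section Expand

variable {c a A b w τ ψ e σ α : ℝ}

theorem vN_expand (hb : a * b = 1) (hw : (a - α * τ) * w = 1) :
    vN c b w τ ψ σ = b + τ * vN1 c b w τ ψ σ α := by
  have h1 : w = b * (1 + α * τ * w) := by
    have : b * (1 + α * τ * w) = b * (a * w) := by rw [← hw]; ring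
    rw [this, ← mul_assoc, mul_comm b a, hb, one_mul]
  simp only [vN, vN1]
  linear_combination h1

theorem vM_expand (hb : a * b = 1) (hw : (a - α * τ) * w = 1) :
    vM c b w τ ψ σ = vM0 b ψ + τ * vM1 c b w τ ψ σ α := by
  have h1 : w = b * (1 + α * τ * w) := by
    have : b * (1 + α * τ * w) = b * (a * w) := by rw [← hw]; ring
    rw [this, ← mul_assoc, mul_comm b a, hb, one_mul]
  simp only [vM, vM1, vM0]
  have e1 : vB c τ ψ * vP c b τ ψ σ = (1 + 12 * ψ) - τ * (vν c * ψ + vB c τ ψ * vK1 c b ψ σ) := by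
    simp only [vP]
    have : vB c τ ψ = 1 + 12 * ψ - τ * (vν c * ψ) := by simp only [vB]; ring
    linear_combination this
  rw [e1]
  linear_combination (1 + 12 * ψ) * h1

theorem vL_expand (hb : a * b = 1) (hw : (a - α * τ) * w = 1) :
    vL c b w τ ψ e σ = vL0 b ψ e + τ * vL1 c b w τ ψ e σ α := by
  have h1 : w = b * (1 + α * τ * w) := by
    have : b * (1 + α * τ * w) = b * (a * w) := by rw [← hw]; ring
    rw [this, ← mul_assoc, mul_comm b a, hb, one_mul]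
  simp only [vL, vL1, vL0]
  have e1 : vB c τ ψ = 1 + 12 * ψ - τ * (vν c * ψ) := by simp only [vB]; ring
  have e2 : vP c b τ ψ σ = 1 - τ * vK1 c b ψ σ := rfl
  have e3 : vB c τ ψ * (vP c b τ ψ σ - τ * vK0 c b ψ e σ)
    + 2 * vP c b τ ψ σ * (-(vν c * τ * ψ) - (12 - vν c * τ) * e) =
    (1 + 12 * ψ - 24 * e) + τ * (-(vν c * ψ) - vB c τ ψ * (vK0 c b ψ e σ + vK1 c b ψ σ)
    + 24 * vK1 c b ψ σ * e + 2 * vν c * vP c b τ ψ σ * (e - ψ)) := by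
    rw [e2]
    linear_combination e1
  rw [e3]
  linear_combination (1 + 12 * ψ - 24 * e) * h1

theorem vD_expand (hb : a * b = 1) (hw : (a - α * τ) * w = 1) :
    vU c b ψ e σ * (2 * vL c b w τ ψ e σ - c * vN c b w τ ψ σ)
      - (vK0 c b ψ e σ + vL c b w τ ψ e σ - vM c b w τ ψ σ) ^ 2 =
    (vU c b ψ e σ * (2 * vL0 b ψ e - c * b) - (vK0 c b ψ e σ + vL0 b ψ e - vM0 b ψ) ^ 2)
      + τ * vE c b w τ ψ e σ α := by
  rw [vL_expand hb hw (e := e) (σ := σ) (ψ := ψ) (c := c),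
    vN_expand hb hw (σ := σ) (ψ := ψ) (c := c), vM_expand hb hw (σ := σ) (ψ := ψ) (c := c)]
  simp only [vE, vV1]
  ring

end Expand

theorem vD0_identity (c b ψ e σ : ℝ) :
    vU c b ψ e σ * (2 * vL0 b ψ e - c * b) - (vK0 c b ψ e σ + vL0 b ψ e - vM0 b ψ) ^ 2 =
    (((2 - c) * b - 2 / 3) * (1 - ψ) + 2 / 3 * σ * ψ) *
        (3 / 2 * vK1 c b ψ σ - 2 * vk c b σ * e)
      + vK1 c b ψ σ * e * (((2 - c) * b - 2 / 3) - 2 / 3 * σ)
      - (vk c b σ - 24 * b) ^ 2 * e ^ 2 := by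
  simp only [vU, vL0, vM0, vK0, vK1, vk, vK]
  ring

section Bounds

variable {c b ψ e σ : ℝ} (hc1 : 1 / 2 ≤ c) (hc2 : c ≤ 1) (hb1 : 99 / 100 ≤ b)
  (hb2 : b ≤ 10102 / 10000) (hψ1 : 0 ≤ ψ) (hψ2 : ψ ≤ 1) (he1 : 0 ≤ e) (he2 : e ≤ 1 / 3000)
  (hσ1 : 0 ≤ σ) (hσ2 : σ ≤ 1 / 10)

include hc1 hc2 hb1 hb2 hσ1 hσ2

theorem vk_bounds : 36 ≤ vk c b σ ∧ vk c b σ ≤ 38 := by
  simp only [vk, vK]
  constructor
  · nlinarith
  · nlinarith

theorem vk_sub_bounds : 10 ≤ vk c b σ - 24 * b ∧ vk c b σ - 24 * b ≤ 15 := by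
  simp only [vk, vK]
  constructor
  · nlinarith
  · nlinarith

include hψ1 hψ2

theorem vK1_bounds : 1 ≤ vK1 c b ψ σ ∧ vK1 c b ψ σ ≤ 39 := by
  obtain ⟨h1, h2⟩ := vk_bounds hc1 hc2 hb1 hb2 hσ1 hσ2
  simp only [vK1]
  constructor
  · nlinarith
  · nlinarith

include he1 he2

theorem vK0_pos : 0 < vK0 c b ψ e σ := by
  obtain ⟨h1, h2⟩ := vk_bounds hc1 hc2 hb1 hb2 hσ1 hσ2
  obtain ⟨h3, h4⟩ := vK1_bounds hc1 hc2 hb1 hb2 hψ1 hψ2 hσ1 hσ2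
  simp only [vK0]
  nlinarith

theorem vU_pos : 0 < vU c b ψ e σ := by
  obtain ⟨h1, h2⟩ := vk_bounds hc1 hc2 hb1 hb2 hσ1 hσ2
  obtain ⟨h3, h4⟩ := vK1_bounds hc1 hc2 hb1 hb2 hψ1 hψ2 hσ1 hσ2
  simp only [vU, vK0]
  nlinarith

theorem vD0_bound : 3 / 10 * (1 - ψ) + 2 / 3 * σ * ψ ≤
    vU c b ψ e σ * (2 * vL0 b ψ e - c * b) - (vK0 c b ψ e σ + vL0 b ψ e - vM0 b ψ) ^ 2 := by
  obtain ⟨h1, h2⟩ := vk_bounds hc1 hc2 hb1 hb2 hσ1 hσ2
  obtain ⟨h3, h4⟩ := vK1_bounds hc1 hc2 hb1 hb2 hψ1 hψ2 hσ1 hσ2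
  obtain ⟨h5, h6⟩ := vk_sub_bounds hc1 hc2 hb1 hb2 hσ1 hσ2
  rw [vD0_identity]
  have hd : 32 / 100 ≤ (2 - c) * b - 2 / 3 := by nlinarith
  have hΔ : 3 / 10 * (1 - ψ) + 2 / 3 * σ * ψ ≤
      ((2 - c) * b - 2 / 3) * (1 - ψ) + 2 / 3 * σ * ψ := by
    have : 3 / 10 * (1 - ψ) ≤ ((2 - c) * b - 2 / 3) * (1 - ψ) :=
      mul_le_mul_of_nonneg_right (by linarith) (by linarith)
    linarith
  have hΔ0 : 0 ≤ 3 / 10 * (1 - ψ) + 2 / 3 * σ * ψ := by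
    have : 0 ≤ σ * ψ := mul_nonneg hσ1 hψ1
    nlinarith
  have hf : 1 ≤ 3 / 2 * vK1 c b ψ σ - 2 * vk c b σ * e := by
    nlinarith [mul_le_mul h2 he2 he1 (by norm_num : (0:ℝ) ≤ 38)]
  have t1 : 3 / 10 * (1 - ψ) + 2 / 3 * σ * ψ ≤
      (((2 - c) * b - 2 / 3) * (1 - ψ) + 2 / 3 * σ * ψ) *
        (3 / 2 * vK1 c b ψ σ - 2 * vk c b σ * e) := by
    calc _ ≤ _ := hΔ
      _ = (((2 - c) * b - 2 / 3) * (1 - ψ) + 2 / 3 * σ * ψ) * 1 := (mul_one _).symm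
      _ ≤ _ := mul_le_mul_of_nonneg_left hf (hΔ0.trans hΔ)
  have t2 : (vk c b σ - 24 * b) ^ 2 * e ^ 2 ≤ vK1 c b ψ σ * e *
      (((2 - c) * b - 2 / 3) - 2 / 3 * σ) := by
    have s1 : (vk c b σ - 24 * b) ^ 2 ≤ 225 := by nlinarith
    have s2 : (vk c b σ - 24 * b) ^ 2 * e ^ 2 ≤ 225 * e ^ 2 :=
      mul_le_mul_of_nonneg_right s1 (sq_nonneg e)
    have s3 : 225 * e ^ 2 ≤ 1 / 10 * e := by nlinarith
    have s4 : 1 / 10 * e ≤ vK1 c b ψ σ * e * (((2 - c) * b - 2 / 3) - 2 / 3 * σ) := by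
      have s5 : 1 / 10 ≤ ((2 - c) * b - 2 / 3) - 2 / 3 * σ := by linarith
      have s6 : 1 * e ≤ vK1 c b ψ σ * e := mul_le_mul_of_nonneg_right h3 he1
      have s7 : 0 ≤ vK1 c b ψ σ * e := mul_nonneg (by linarith) he1
      nlinarith
    linarith
  linarith

theorem vV0_bound : 1 / 2 ≤ 2 * vL0 b ψ e - c * b := by
  simp only [vL0]
  have h0 : 0 ≤ b := by linarith
  have h1 : c * b ≤ 1 * b := mul_le_mul_of_nonneg_right hc2 h0
  have h2 : e * b ≤ 1 / 3000 * (10102 / 10000) := mul_le_mul he2 hb2 h0 (by norm_num)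
  have h3 : 0 ≤ ψ * b := mul_nonneg hψ1 h0
  nlinarith

end Bounds

/-- evaluation at a point of `ℝ⁷` -/
def ev (F : ℝ → ℝ → ℝ → ℝ → ℝ → ℝ → ℝ → ℝ) (q : ℝ × ℝ × ℝ × ℝ × ℝ × ℝ × ℝ) : ℝ :=
  F q.1 q.2.1 q.2.2.1 q.2.2.2.1 q.2.2.2.2.1 q.2.2.2.2.2.1 q.2.2.2.2.2.2

theorem continuous_vE (c : ℝ) : Continuous (ev (vE c)) := by
  unfold ev
  simp only [vE, vU, vV1, vL1, vM1, vN1, vL0, vM0, vK0, vK1, vk, vK, vB, vP, vν]
  fun_prop

theorem continuous_vV1 (c : ℝ) : Continuous (ev (vV1 c)) := by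
  unfold ev
  simp only [vV1, vL1, vN1, vL0, vK0, vK1, vk, vK, vB, vP, vν]
  fun_prop

theorem continuous_vN1 (c : ℝ) : Continuous (ev (fun b w τ ψ _ σ α => vN1 c b w τ ψ σ α)) := by
  unfold ev
  simp only [vN1, vK1, vk, vK, vB, vP, vν]
  fun_prop

theorem bound_ev (F : ℝ → ℝ → ℝ → ℝ → ℝ → ℝ → ℝ → ℝ) (h : Continuous (ev F)) :
    ∃ C : ℝ, ∀ b w τ ψ e σ α : ℝ, |b| ≤ 40 → |w| ≤ 40 → |τ| ≤ 40 → |ψ| ≤ 40 → |e| ≤ 40 →
      |σ| ≤ 40 → |α| ≤ 40 → |F b w τ ψ e σ α| ≤ C := by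
  obtain ⟨C, hC⟩ := (isCompact_closedBall (0 : ℝ × ℝ × ℝ × ℝ × ℝ × ℝ × ℝ) 40).exists_bound_of_continuousOn
    h.continuousOn
  refine ⟨C, fun b w τ ψ e σ α h1 h2 h3 h4 h5 h6 h7 => ?_⟩
  have := hC (b, w, τ, ψ, e, σ, α) (by
    rw [mem_closedBall_zero_iff]
    simp only [Prod.norm_def, Real.norm_eq_abs]
    simp only [sup_le_iff]
    exact ⟨h1, h2, h3, h4, h5, h6, h7⟩)
  exact this

theorem near_ev (c : ℝ) (hc2 : c ≤ 1) : ∃ δ : ℝ, 0 < δ ∧ ∀ b w τ ψ e σ α : ℝ,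
    |b - 1| < δ → |w - 1| < δ → |τ| < δ → |ψ - 1| < δ → |e| < δ → |σ| < δ → |α - 13| < δ →
      0 < vE c b w τ ψ e σ α := by
  have h1 : ContinuousAt (ev (vE c)) (1, 1, 0, 1, 0, 0, 13) := (continuous_vE c).continuousAt
  have h2 : 0 < ev (vE c) (1, 1, 0, 1, 0, 0, 13) := by
    show 0 < vE c 1 1 0 1 0 0 13
    rw [vE_base]
    linarith
  have h3 := h1.eventually_const_lt h2
  rw [Metric.eventually_nhds_iff] at h3
  obtain ⟨δ, hδ, h4⟩ := h3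
  refine ⟨δ, hδ, fun b w τ ψ e σ α h1 h2 h3 h5 h6 h7 h8 => ?_⟩
  refine h4 (y := (b, w, τ, ψ, e, σ, α)) ?_
  simp only [Prod.dist_eq, Real.dist_eq, sub_zero, sup_lt_iff]
  exact ⟨h1, h2, h3, h5, h6, h7, h8⟩

/-- **The soft lemma.** -/
theorem soft {p c : ℝ} (hc : c = 1 - 1 / p) (hc1 : 1 / 2 ≤ c) (hc2 : c ≤ 1) :
    ∃ δ : ℝ, 0 < δ ∧ δ ≤ 1 / 3000 ∧ ∀ a b w τ ψ e σ α : ℝ, a * b = 1 → (a - α * τ) * w = 1 →
      |a - 1| ≤ δ → 0 ≤ τ → τ ≤ δ → 0 ≤ ψ → ψ ≤ 1 → 0 ≤ e → e ≤ δ → 0 < σ → σ ≤ δ →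
      |α - 13| ≤ 12 * (1 - ψ) + 300 * τ →
      PosCond p 2 (vK1 c b ψ σ) (vK0 c b ψ e σ) (vM c b w τ ψ σ) (vL c b w τ ψ e σ)
        (vN c b w τ ψ σ) := by
  obtain ⟨C1, hC1⟩ := bound_ev _ (continuous_vE c)
  obtain ⟨C2, hC2⟩ := bound_ev _ (continuous_vV1 c)
  obtain ⟨C3, hC3⟩ := bound_ev _ (continuous_vN1 c)
  obtain ⟨δ0, hδ0, hE⟩ := near_ev c hc2
  set C : ℝ := max 1 (max C1 (max C2 C3)) with hC
  have hCge1 : 1 ≤ C := le_max_left _ _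
  have hCp : 0 < C := by linarith
  set δ1 : ℝ := min 1 δ0 with hδ1
  have hδ1p : 0 < δ1 := lt_min one_pos hδ0
  set δ : ℝ := min (1 / 3000) (min (δ1 / 1000) (δ1 / (100 * C))) with hδ
  have hδp : 0 < δ := by
    rw [hδ]; positivity
  have hδa : δ ≤ 1 / 3000 := min_le_left _ _
  have hδb : δ ≤ δ1 / 1000 := (min_le_right _ _).trans (min_le_left _ _)
  have hδc : δ * C ≤ δ1 / 100 := by
    have : δ ≤ δ1 / (100 * C) := (min_le_right _ _).trans (min_le_right _ _)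
    calc δ * C ≤ δ1 / (100 * C) * C := by gcongr
      _ = δ1 / 100 := by field_simp
  have hδ1le : δ1 ≤ 1 := min_le_left _ _
  have hδ1le0 : δ1 ≤ δ0 := min_le_right _ _
  refine ⟨δ, hδp, hδa, ?_⟩
  intro a b w τ ψ e σ α hab haw ha hτ0 hτ1 hψ0 hψ1 he0 he1 hσ0 hσ1 hα
  rw [abs_le] at ha
  have hα' := hα
  rw [abs_le] at hα'
  have hap : 0 < a := by linarith
  have hbp : 0 < b := by
    by_contra h
    nlinarith [mul_nonneg hap.le (sub_nonneg.2 (not_lt.1 h))]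
  have hα26 : |α| ≤ 26 := by
    rw [abs_le]; constructor <;> linarith
  have hα26' := abs_le.1 hα26
  have hAb : |a - α * τ - 1| ≤ 27 * δ := by
    have h1 : |α * τ| ≤ 26 * δ := by
      rw [abs_mul, abs_of_nonneg hτ0]
      exact mul_le_mul hα26 hτ1 hτ0 (by norm_num)
    rw [abs_le] at h1 ⊢
    constructor <;> linarith [ha.1, ha.2]
  rw [abs_le] at hAb
  have hAp : 0 < a - α * τ := by linarith
  have hwp : 0 < w := by
    by_contra h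
    nlinarith [mul_nonneg hAp.le (sub_nonneg.2 (not_lt.1 h))]
  have hb1 : 99 / 100 ≤ b := by nlinarith
  have hb2 : b ≤ 10102 / 10000 := by nlinarith
  have hw1 : 9 / 10 ≤ w := by nlinarith
  have hw2 : w ≤ 11 / 10 := by nlinarith
  have hbn : |b - 1| < δ0 := by
    have : |b - 1| ≤ 2 * δ := by rw [abs_le]; constructor <;> nlinarith
    linarith
  have hwn : |w - 1| < δ0 := by
    have : |w - 1| ≤ 54 * δ := by rw [abs_le]; constructor <;> nlinarith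
    linarith
  have hσ' : 0 ≤ σ := hσ0.le
  have hσ2 : σ ≤ 1 / 10 := by linarith
  have he2 : e ≤ 1 / 3000 := by linarith
  have babs : |b| ≤ 40 := by rw [abs_le]; constructor <;> linarith
  have wabs : |w| ≤ 40 := by rw [abs_le]; constructor <;> linarith
  have τabs : |τ| ≤ 40 := by rw [abs_le]; constructor <;> linarith
  have ψabs : |ψ| ≤ 40 := by rw [abs_le]; constructor <;> linarith
  have eabs : |e| ≤ 40 := by rw [abs_le]; constructor <;> linarith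
  have σabs : |σ| ≤ 40 := by rw [abs_le]; constructor <;> linarith
  have αabs : |α| ≤ 40 := hα26.trans (by norm_num)
  have bE : |vE c b w τ ψ e σ α| ≤ C :=
    (hC1 b w τ ψ e σ α babs wabs τabs ψabs eabs σabs αabs).trans
      ((le_max_left _ _).trans (le_max_right _ _))
  have bV : |vV1 c b w τ ψ e σ α| ≤ C :=
    (hC2 b w τ ψ e σ α babs wabs τabs ψabs eabs σabs αabs).trans
      ((le_max_left _ _).trans ((le_max_right _ _).trans (le_max_right _ _)))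
  have bN : |vN1 c b w τ ψ σ α| ≤ C :=
    (hC3 b w τ ψ e σ α babs wabs τabs ψabs eabs σabs αabs).trans
      ((le_max_right _ _).trans ((le_max_right _ _).trans (le_max_right _ _)))
  have small : ∀ x : ℝ, |x| ≤ C → -(δ1 / 100) ≤ τ * x ∧ τ * x ≤ δ1 / 100 := by
    intro x hx
    have : |τ * x| ≤ δ1 / 100 := by
      rw [abs_mul, abs_of_nonneg hτ0]
      exact (mul_le_mul hτ1 hx (abs_nonneg _) hδp.le).trans hδc
    exact abs_le.1 this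
  obtain ⟨k1, k2⟩ := vK1_bounds hc1 hc2 hb1 hb2 hψ0 hψ1 hσ' hσ2
  have hK0 := vK0_pos hc1 hc2 hb1 hb2 hψ0 hψ1 he0 he2 hσ' hσ2
  have hU := vU_pos hc1 hc2 hb1 hb2 hψ0 hψ1 he0 he2 hσ' hσ2
  have hN : 1 / 2 < vN c b w τ ψ σ := by
    rw [vN_expand hab haw]
    have := (small _ bN).1
    linarith
  have hV : 1 / 4 < 2 * vL c b w τ ψ e σ - c * vN c b w τ ψ σ := by
    rw [vN_expand hab haw, vL_expand hab haw]
    have h1 := (small _ bV).1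
    have h2 := vV0_bound hc1 hc2 hb1 hb2 hψ0 hψ1 he0 he2 hσ' hσ2
    have h3 : 2 * (vL0 b ψ e + τ * vL1 c b w τ ψ e σ α) - c * (b + τ * vN1 c b w τ ψ σ α) =
        (2 * vL0 b ψ e - c * b) + τ * vV1 c b w τ ψ e σ α := by
      simp only [vV1]; ring
    rw [h3]
    linarith
  have hL : 0 < vL c b w τ ψ e σ := by nlinarith
  have hν1 : vν c ≤ 0 := by simp only [vν]; linarith
  have hB : 1 ≤ vB c τ ψ := by
    simp only [vB]
    have : 0 ≤ (12 - vν c * τ) * ψ := by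
      apply mul_nonneg _ hψ0
      have := mul_nonneg (neg_nonneg.2 hν1) hτ0
      linarith
    linarith
  have hP : 0 < vP c b τ ψ σ := by
    simp only [vP]
    have : τ * vK1 c b ψ σ ≤ 1 / 3000 * 39 :=
      mul_le_mul (hτ1.trans hδa) k2 (by linarith) (by norm_num)
    linarith
  have hM : 0 < vM c b w τ ψ σ := by
    simp only [vM]
    have : 0 < vB c τ ψ := by linarith
    positivity
  have hD : (vK0 c b ψ e σ + vL c b w τ ψ e σ - vM c b w τ ψ σ) ^ 2 <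
      vU c b ψ e σ * (2 * vL c b w τ ψ e σ - c * vN c b w τ ψ σ) := by
    have h1 := vD_expand (c := c) (ψ := ψ) (e := e) (σ := σ) hab haw
    have h2 := vD0_bound hc1 hc2 hb1 hb2 hψ0 hψ1 he0 he2 hσ' hσ2
    suffices h : 0 < (vU c b ψ e σ * (2 * vL0 b ψ e - c * b) -
        (vK0 c b ψ e σ + vL0 b ψ e - vM0 b ψ) ^ 2) + τ * vE c b w τ ψ e σ α by linarith
    rcases lt_or_ge (1 - ψ) (δ1 / 24) with h3 | h3
    · -- near the base point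
      have h4 : 0 < vE c b w τ ψ e σ α := by
        apply hE b w τ ψ e σ α hbn hwn
        · rw [abs_of_nonneg hτ0]; linarith
        · rw [abs_sub_comm, abs_of_nonneg (by linarith)]; linarith
        · rw [abs_of_nonneg he0]; linarith
        · rw [abs_of_nonneg hσ']; linarith
        · refine lt_of_le_of_lt hα ?_
          linarith
      have h5 : 0 ≤ τ * vE c b w τ ψ e σ α := mul_nonneg hτ0 h4.le
      have h6 : 0 < 2 / 3 * σ * ψ := by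
        have : 0 < ψ := by linarith
        positivity
      linarith
    · have h4 := (small _ bE).1
      have h5 : 0 ≤ 2 / 3 * σ * ψ := by positivity
      linarith
  refine ⟨by linarith, hK0, hM, hL, by linarith, ?_, ?_, ?_⟩
  · have e1 : 2 * vK0 c b ψ e σ - (1 - 1 / 2) * vK1 c b ψ σ = vU c b ψ e σ := by
      simp only [vU]; ring
    rw [e1]
    exact hU
  · rw [← hc]
    linarith
  · have e1 : 2 * vK0 c b ψ e σ - (1 - 1 / 2) * vK1 c b ψ σ = vU c b ψ e σ := by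
      simp only [vU]; ring
    rw [← hc, e1]
    exact hD

end Pool.Agent.RF.H13
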